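import Pool.Agent.PFP.Paths

/-!
The number of accepting computations is congruent modulo `p` to the number of the lists of queries
with positive answers in a family that does not depend on the oracle.
-/

set_option autoImplicit false

namespace Pool.Agent.PFQ

open MP_92db0f_lc_alg (answers)
open PFP (vecs mem_vecs ones ones_eq_iff paths mem_paths)

/-- the number of copies of a list, it is congruent to `(-1) ^ k` modulo `p` -/
def mult (p k : ℕ) : ℕ := if Even k then 1 else p - 1

lemma cast_mult {p : ℕ} (hp : 1 ≤ p) (k : ℕ) : ((mult p k : ℕ) : ZMod p) = (-1) ^ k := by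
  unfold mult
  split_ifs with h
  · rw [h.neg_one_pow, Nat.cast_one]
  · rw [(Nat.not_even_iff_odd.1 h).neg_one_pow, Nat.cast_sub hp, ZMod.natCast_self, Nat.cast_one,
      zero_sub]

/-- **The inclusion-exclusion principle.** -/
lemma sum_Icc_neg_one_pow {R : Type*} [CommRing R] (P Q : Finset ℕ) :
    ∑ S ∈ Finset.Icc P Q, (-1 : R) ^ (S \ P).card = if P = Q then 1 else 0 := by
  by_cases h : P ⊆ Q
  · have h0 : ∀ S ∈ (Q \ P).powerset, (P ∪ S) \ P = S := by
      intro S hS
      rw [Finset.mem_powerset] at hS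
      rw [Finset.union_sdiff_left, Finset.sdiff_eq_self_iff_disjoint]
      exact Finset.disjoint_of_subset_left hS Finset.sdiff_disjoint
    rw [Finset.Icc_eq_image_powerset h, Finset.sum_image ?_]
    · rw [Finset.sum_congr rfl fun S hS => by rw [h0 S hS]]
      have h2 := congrArg (Int.cast : ℤ → R) (Finset.sum_powerset_neg_one_pow_card (x := Q \ P))
      push_cast at h2
      rw [h2]
      have h3 : Q \ P = ∅ ↔ P = Q := by
        rw [Finset.sdiff_eq_empty_iff_subset]
        exact ⟨fun h4 => Finset.Subset.antisymm h h4, fun h4 => h4 ▸ Finset.Subset.refl _⟩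
      by_cases h4 : P = Q
      · rw [if_pos h4, if_pos (h3.2 h4)]
      · rw [if_neg h4, if_neg fun h5 => h4 (h3.1 h5)]
    · intro S hS T hT hST
      have h1 := h0 S (Finset.mem_coe.1 hS)
      have h2 := h0 T (Finset.mem_coe.1 hT)
      dsimp only at hST
      rw [← h1, hST, h2]
  · rw [Finset.Icc_eq_empty h, Finset.sum_empty, if_neg]
    rintro rfl
    exact h (Finset.Subset.refl _)

open Classical in
/-- **The number of the accepting computations.** -/
theorem card_paths {p : ℕ} (hp : 1 ≤ p) (O : Set (List Bool)) {α : Type}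
    (q : α × List Bool → List Bool) (d : α → List Bool → Prop) (Y : Finset α) (N : α → ℕ) :
    (((Y.filter fun a => d a (answers O q a (N a))).card : ℕ) : ZMod p) =
      ∑ t ∈ paths d Y N, if ∀ i ∈ t.2.2, q (t.1, t.2.1.take i) ∈ O then
        ((mult p (t.2.2 \ ones (N t.1) t.2.1).card : ℕ) : ZMod p) else 0 := by
  unfold paths
  rw [Finset.sum_filter, Finset.card_filter, Finset.sum_sigma]
  push_cast
  refine Finset.sum_congr rfl fun a _ => ?_
  rw [Finset.sum_product]
  dsimp only
  have h1 : ∀ v ∈ (vecs (N a)).filter (d a), (∑ S ∈ (Finset.range (N a)).powerset,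
      (if ones (N a) v ⊆ S then (if ∀ i ∈ S, q (a, v.take i) ∈ O then
        ((mult p (S \ ones (N a) v).card : ℕ) : ZMod p) else 0) else 0)) =
      if v = answers O q a (N a) then 1 else 0 := by
    intro v hv
    rw [Finset.mem_filter, mem_vecs] at hv
    have h2 : (∑ S ∈ (Finset.range (N a)).powerset,
        (if ones (N a) v ⊆ S then (if ∀ i ∈ S, q (a, v.take i) ∈ O then
          ((mult p (S \ ones (N a) v).card : ℕ) : ZMod p) else 0) else 0)) =
        ∑ S ∈ Finset.Icc (ones (N a) v) ((Finset.range (N a)).filter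
          fun i => q (a, v.take i) ∈ O), (-1 : ZMod p) ^ (S \ ones (N a) v).card := by
      rw [← Finset.sum_filter, ← Finset.sum_filter]
      refine Finset.sum_congr ?_ fun S _ => cast_mult hp _
      ext S
      rw [Finset.mem_filter, Finset.mem_filter, Finset.mem_powerset, Finset.mem_Icc]
      constructor
      · rintro ⟨⟨h3, h4⟩, h5⟩
        exact ⟨h4, fun i hi => Finset.mem_filter.2 ⟨h3 hi, h5 i hi⟩⟩
      · rintro ⟨h3, h4⟩
        exact ⟨⟨fun i hi => (Finset.mem_filter.1 (h4 hi)).1, h3⟩,
          fun i hi => (Finset.mem_filter.1 (h4 hi)).2⟩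
    rw [h2, sum_Icc_neg_one_pow]
    by_cases h3 : v = answers O q a (N a)
    · rw [if_pos h3, if_pos ((ones_eq_iff O q a (N a) hv.1).2 h3)]
    · rw [if_neg h3, if_neg fun h4 => h3 ((ones_eq_iff O q a (N a) hv.1).1 h4)]
  rw [Finset.sum_congr rfl h1, Finset.sum_ite_eq']
  by_cases h2 : d a (answers O q a (N a))
  · rw [if_pos h2, if_pos (Finset.mem_filter.2 ⟨mem_vecs.2 (MP_92db0f_lc_alg.answers_length ..),
      h2⟩)]
  · rw [if_neg h2, if_neg fun h3 => h2 (Finset.mem_filter.1 h3).2]

end Pool.Agent.PFQ
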