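import Pool.Agent.PFQ.Defs
import Pool.Agent.PFQ.ModPaths
import Pool.Agent.PFP.Parity

/-!
A rule such that the oracles that obey it satisfy `Mod_pP ⊆ P`.
-/

set_option autoImplicit false

namespace Pool.Agent.PFQ

open Turing Computability Lib.helper60
open MP_92db0f_lc_alg (answers PolyTime Mach InP answers_congr answers_length)
open MP_92db0f_lc (length_encPair PT_encPair PT_peval)
open MP_92db0f_lc_mul (length_strFun)
open PFP (vecs mem_vecs ones paths mem_paths mqf mdf exists_machR upTo mem_upTo enumM enumM_surj)

/-! ### the computations of a machine -/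

open Classical in
/-- the family of the lists of queries that describes the computations of the machine `μ` on the
input `x` and the certificates in `Y` -/
noncomputable def famOf (p : ℕ) (μ : Mach) (x : List Bool) (Y : Finset (List Bool)) :
    List (List (List Bool)) :=
  (paths (mdf μ x) Y fun y => μ.2.2.1.eval (encPair (x, y)).length).toList.flatMap fun t =>
    List.replicate (mult p (t.2.2 \ ones (μ.2.2.1.eval (encPair (x, t.1)).length) t.2.1).card)
      (t.2.2.toList.map fun i => mqf μ x (t.1, t.2.1.take i))

open Classical in
/-- the number of the accepted certificates modulo `p` -/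
lemma par_famOf {p : ℕ} (hp : 1 ≤ p) (A : Set (List Bool)) (μ : Mach) (x : List Bool)
    (Y : Finset (List Bool)) :
    Par p A (famOf p μ x Y) ↔ ¬ p ∣ (Y.filter fun y => μ.Acc1 A x y).card := by
  have h1 := card_paths hp A (mqf μ x) (mdf μ x) Y fun y => μ.2.2.1.eval (encPair (x, y)).length
  have h2 : (Y.filter fun y => μ.Acc1 A x y) = Y.filter fun y =>
      mdf μ x y (answers A (mqf μ x) y (μ.2.2.1.eval (encPair (x, y)).length)) := by
    apply Finset.filter_congr
    intro y _
    unfold Mach.Acc1 mdf
    rw [answers_congr A μ.q (mqf μ x) (encPair (x, y)) y fun v => rfl]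
  have h3 : ∀ t : (Σ _ : List Bool, List Bool × Finset ℕ),
      (∀ u ∈ (t.2.2.toList.map fun i => mqf μ x (t.1, t.2.1.take i)), u ∈ A) ↔
        ∀ i ∈ t.2.2, mqf μ x (t.1, t.2.1.take i) ∈ A := by
    intro t
    simp only [List.mem_map, Finset.mem_toList, forall_exists_index, and_imp,
      forall_apply_eq_imp_iff₂]
  unfold Par
  rw [not_iff_not, ← ZMod.natCast_eq_zero_iff, ← ZMod.natCast_eq_zero_iff, h2, h1]
  unfold famOf
  rw [List.filter_flatMap, List.length_flatMap]
  refine Iff.of_eq (congrArg (· = (0 : ZMod p)) ?_)
  rw [← Finset.sum_map_toList, Nat.cast_list_sum, List.map_map]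
  congr 2
  funext t
  rw [Function.comp_apply, List.filter_replicate]
  by_cases h4 : ∀ i ∈ t.2.2, mqf μ x (t.1, t.2.1.take i) ∈ A
  · rw [if_pos (decide_eq_true ((h3 t).2 h4)), if_pos h4, List.length_replicate]
  · rw [if_neg fun h5 => h4 ((h3 t).1 (of_decide_eq_true h5)), if_neg h4, List.length_nil,
      Nat.cast_zero]

lemma mem_famOf {p : ℕ} {μ : Mach} {x : List Bool} {Y : Finset (List Bool)}
    {M : List (List Bool)} (hM : M ∈ famOf p μ x Y) : M ∈ PFP.famOf μ x Y := by
  unfold famOf at hM
  obtain ⟨t, ht, hM⟩ := List.mem_flatMap.1 hM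
  exact List.mem_map.2 ⟨t, ht, (List.eq_of_mem_replicate hM).symm⟩

/-! ### the rule -/

open Classical in
/-- the rule for the numbers modulo `p` of the accepted certificates: the string `w` is read as
the code of the number of a machine, an input and a padding -/
noncomputable def modRule (p : ℕ) (w : List Bool) : List (List (List Bool)) :=
  (famOf p (enumM (unpair w).1.length).1 (unpair (unpair w).2).1
    (upTo ((enumM (unpair w).1.length).2.eval (unpair (unpair w).2).1.length))).filter
      fun M => (p - 1) * (M.map List.length).sum ≤ w.length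

lemma modRule_len (p : ℕ) (w : List Bool) :
    ∀ M ∈ modRule p w, (p - 1) * (M.map List.length).sum ≤ w.length := by
  intro M hM
  unfold modRule at hM
  simpa using (List.mem_filter.1 hM).2

/-- **Oracles that obey the rule satisfy `Mod_pP ⊆ P`.** -/
theorem inP_of_inModP {p : ℕ} (hp : 1 ≤ p) {A : Set (List Bool)} {pre : List Bool → List Bool}
    (hpre : PT pre) (h : ∀ w, pre w ∈ A ↔ Par p A (modRule p w)) {L : Set (List Bool)}
    (hL : InModP p A L) : InP A L := by
  classical
  obtain ⟨P, R, hR, hL⟩ := hL
  obtain ⟨μ, hμ⟩ := exists_machR hR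
  obtain ⟨e, he⟩ := enumM_surj (μ, P)
  obtain ⟨G, hG⟩ := PFP.exists_poly μ P
  have key : ∀ x : List Bool, x ∈ L ↔ pre (encPair (List.replicate e true, encPair (x,
      List.replicate (((p - 1 : ℕ) * G : Polynomial ℕ).eval x.length) true))) ∈ A := by
    intro x
    rw [h, hL]
    have h1 : modRule p (encPair (List.replicate e true, encPair (x,
        List.replicate (((p - 1 : ℕ) * G : Polynomial ℕ).eval x.length) true))) =
          famOf p μ x (upTo (P.eval x.length)) := by
      unfold modRule
      rw [unpair_enc, unpair_enc, List.length_replicate, he]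
      dsimp only
      rw [List.filter_eq_self]
      intro M hM
      rw [decide_eq_true_iff, length_encPair, length_encPair, List.length_replicate]
      have h2 := Nat.mul_le_mul_left (p - 1) (hG x M (mem_famOf hM))
      rw [List.length_replicate, Polynomial.eval_mul, Polynomial.eval_natCast]
      simp only [Nat.cast_id]
      omega
    rw [h1, par_famOf hp]
    have h2 : {y : List Bool | y.length ≤ P.eval x.length ∧ R (x, y)} =
        (((upTo (P.eval x.length)).filter fun y => μ.Acc1 A x y : Finset (List Bool)) :
          Set (List Bool)) := by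
      ext y
      rw [Finset.coe_filter]
      exact and_congr mem_upTo.symm (hμ x y)
    rw [h2, Set.ncard_coe_finset]
  have hpt : PT fun x : List Bool => pre (encPair (List.replicate e true, encPair (x,
      List.replicate (((p - 1 : ℕ) * G : Polynomial ℕ).eval x.length) true))) :=
    hpre.comp (PT_encPair (PT.const _) (PT_encPair PT.id
      (PT.replicate (PT_peval _ (PT.length PT.id)) (PT.const true))))
  refine ⟨fun z => pre (encPair (List.replicate e true, encPair (z.1,
      List.replicate (((p - 1 : ℕ) * G : Polynomial ℕ).eval z.1.length) true))),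
      fun z => z.2.headD false, 1, ?_, ?_, ?_⟩
  · refine PT.toTM2 (F := fun w => pre (encPair (List.replicate e true, encPair ((unpair w).1,
      List.replicate (((p - 1 : ℕ) * G : Polynomial ℕ).eval (unpair w).1.length) true)))) ?_ ?_
    · exact hpt.comp PT_unpair.p1
    · intro a
      simp only [unpair_enc]
  · refine PT.decider (F := fun w => (unpair w).2.headD false) ?_ ?_
    · exact PT.headD PT_unpair.p2 (PT.const false)
    · intro a
      simp only [unpair_enc]
  · intro x
    refine (key x).trans ?_
    simp [answers]

theorem exists_modRule {p : ℕ} (hp : 1 ≤ p) : ∃ Λ : List Bool → List (List (List Bool)),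
    (∀ w, ∀ M ∈ Λ w, (p - 1) * (M.map List.length).sum ≤ w.length) ∧
    ∀ A : Set (List Bool), (∀ w, true :: false :: w ∈ A ↔ Par p A (Λ w)) →
      ∀ L, InModP p A L → InP A L :=
  ⟨modRule p, modRule_len p, fun _ hA _ hL => inP_of_inModP hp
    (pre := fun w => true :: false :: w)
    (PT.cons (PT.const true) (PT.cons (PT.const false) PT.id)) hA hL⟩

end Pool.Agent.PFQ
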