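import Pool.Agent.PFQ.CDefs
import Pool.Agent.PFP.Sys

/-!
The system of requirements for `NE` relative to an oracle whose bits are values of polynomials over
the field with `p` elements in the bits of another oracle.
-/

set_option autoImplicit false

namespace Pool.Agent.PFQ

open Turing Computability Lib.helper60
open MP_92db0f_lc_alg (answers PolyTime Mach exists_short answers_congr encPair_inj answers_length)
open MP_92db0f_lc (length_encPair PT_npow)
open MP_92db0f_lc_thr (cls Dg sb hs Off lg rtc pcf τf NAcc le_rtc PT_rtc pcf_mono τf_iff le_pcf)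
open PFP (cl pd clf cdHf cdVf le_cl_of_pd)

/-- the answers to `N` queries of length at most `M` depend on polynomials of weight at most
`N * ((p - 1) * (M + 1))` -/
lemma answers_pol {p : ℕ} {lam : List Bool → Pol p} (hlam : ∀ w, (lam w).totalDegree ≤ w.length)
    {α : Type} (q : α × List Bool → List Bool) (a : α) (A : Set (List Bool)) (M N : ℕ)
    (hM : ∀ i < N, (q (a, answers (Phi lam A) q a i)).length ≤ M) :
    ∃ S : Finset (Pol p), wt S ≤ N * ((p - 1) * (M + 1)) ∧ ∀ B : Set (List Bool), Agree A B S →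
      ∀ i ≤ N, answers (Phi lam A) q a i = answers (Phi lam B) q a i := by
  classical
  refine ⟨(Finset.range N).image fun i => lam (q (a, answers (Phi lam A) q a i)), ?_,
    fun B hB i => ?_⟩
  · refine (wt_image_le _ _ M fun i hi => ?_).trans (by rw [Finset.card_range])
    exact (hlam _).trans (hM i (Finset.mem_range.1 hi))
  · induction i with
    | zero => exact fun _ => rfl
    | succ i ih =>
      intro hi
      have h1 := ih (by omega)
      have h2 : q (a, answers (Phi lam A) q a i) ∈ Phi lam A ↔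
          q (a, answers (Phi lam A) q a i) ∈ Phi lam B := by
        have h3 := hB (lam (q (a, answers (Phi lam A) q a i)))
          (Finset.mem_image.2 ⟨i, Finset.mem_range.2 (by omega), rfl⟩)
        unfold Phi at h3 ⊢
        change val A _ = 1 ↔ val B _ = 1
        rw [h3]
      rw [answers, answers, ← h1]
      congr 2
      exact propext h2 ▸ rfl

/-- the level bounds the logarithm of the total length of the queries -/
lemma exists_levelP (p : ℕ) (μ : Mach) (e : ℕ) : ∃ (κ : ℕ) (Q : Polynomial ℕ), e + 1 ≤ κ ∧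
    (∀ z : List Bool × List Bool, (μ.q z).length ≤ Q.eval (2 * z.1.length + 2 + z.2.length)) ∧
    ∀ n L : ℕ, L ≤ 2 * n + 2 + 2 ^ (μ.2.2.2 * n + μ.2.2.2) →
      μ.2.2.1.eval L * ((p - 1) * (Q.eval (2 * L + 2 + μ.2.2.1.eval L) + 1)) ≤
        2 ^ (κ * (n + 1)) := by
  obtain ⟨κ, Q, h1, h2, h3⟩ := PFP.exists_levelP μ e
  refine ⟨κ + p, Q, by omega, h2, fun n L hL => ?_⟩
  have h4 := h3 n L hL
  have h5 : p - 1 ≤ 2 ^ p := (Nat.sub_le _ _).trans Nat.lt_two_pow_self.le
  calc μ.2.2.1.eval L * ((p - 1) * (Q.eval (2 * L + 2 + μ.2.2.1.eval L) + 1))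
      = (p - 1) * (μ.2.2.1.eval L * (Q.eval (2 * L + 2 + μ.2.2.1.eval L) + 1)) := by ring
    _ ≤ 2 ^ p * 2 ^ (κ * (n + 1)) := Nat.mul_le_mul h5 h4
    _ = 2 ^ (p + κ * (n + 1)) := by rw [← pow_add]
    _ ≤ 2 ^ ((κ + p) * (n + 1)) := Nat.pow_le_pow_right (by norm_num) (by nlinarith)

/-- **The system of requirements.** -/
theorem exists_sys {p a b c q : ℕ} (hb : 1 ≤ b) (hab : b ≤ a) (hq : 1 ≤ q) (hc : 1 ≤ c)
    (lam : List Bool → Pol p) (hlam : ∀ w, (lam w).totalDegree ≤ w.length)
    (g : ℕ → MP_92db0f_lc_alg.Mach) :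
    ∃ (Y : Sys p) (κ : ℕ → ℕ) (f : ℕ × List Bool → Y.Req), (∀ e, 1 ≤ κ e) ∧
      (∀ r, Y.lv (f r) = κ r.1 * (r.2.length + 1)) ∧ (∀ m, Y.τ m = τf a b m) ∧
      (Y.cl = clf c q) ∧ (∀ t u, Y.cdH t u = cdHf a b c q t u) ∧
      (∀ r v, Y.cdV (f r) v = cdVf a b c q (fun e x => κ e * (x.length + 1)) r v) ∧
      (∀ A r, Y.acc A (f r) ↔ MP_92db0f_lc_thr.NAcc (g r.1) (Phi lam A) r.2) := by
  classical
  have hκ := fun e => exists_levelP p (g e) e
  choose κ Q hκ1 hQ hκ2 using hκ
  let lv : ℕ → List Bool → ℕ := fun e x => κ e * (x.length + 1)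
  have hlv : ∀ e x, e ≤ lv e x ∧ x.length ≤ lv e x := by
    intro e x
    have h1 := hκ1 e
    change e ≤ κ e * (x.length + 1) ∧ x.length ≤ κ e * (x.length + 1)
    constructor <;> nlinarith
  choose Z hZ hZ' using exists_short
  have hrep : ∀ s t : ℕ, List.replicate s true = List.replicate t true → s = t := by
    intro s t h
    simpa using congrArg List.length h
  refine ⟨{ cl := clf c q
            Req := ℕ × List Bool
            lv := fun r => lv r.1 r.2
            Rq := fun m => ((Finset.range (m + 1)) ×ˢ Z m).filter fun r => lv r.1 r.2 = m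
            mem_Rq := ?_
            card_Rq := ?_
            cdH := cdHf a b c q
            cdV := cdVf a b c q lv
            cdH_inj := ?_
            cdV_inj := ?_
            cd_ne := ?_
            pc := pcf a b
            τ := τf a b
            pc_mono := pcf_mono hb
            τ_iff := τf_iff hb hab
            le_pc := le_pcf hb hab
            cdH_cl := ?_
            cdV_cl := ?_
            acc := fun A r => NAcc (g r.1) (Phi lam A) r.2
            use := ?_ }, κ, id, fun e => by have := hκ1 e; omega, fun r => rfl, fun m => rfl,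
            rfl, fun t u => rfl, fun r v => rfl, fun A r => Iff.rfl⟩
  · rintro m ⟨e, x⟩
    rw [Finset.mem_filter, Finset.mem_product, Finset.mem_range]
    constructor
    · exact fun h => h.2
    · intro h
      obtain ⟨h1, h2⟩ := hlv e x
      dsimp only at h ⊢
      rw [h] at h1 h2
      exact ⟨⟨by omega, hZ' m x h2⟩, h⟩
  · intro m
    refine (Finset.card_filter_le _ _).trans ?_
    rw [Finset.card_product, Finset.card_range]
    have h1 : m + 1 ≤ 2 ^ (m + 1) := Nat.lt_two_pow_self.le
    calc (m + 1) * (Z m).card ≤ 2 ^ (m + 1) * 2 ^ (m + 1) := Nat.mul_le_mul h1 (hZ m)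
      _ = 2 ^ (2 * m + 2) := by rw [← pow_add]; congr 1; ring
  · intro t u t' u' h
    unfold cdHf at h
    have h1 := encPair_inj h
    rw [Prod.mk.injEq, List.cons.injEq] at h1
    have h2 := encPair_inj h1.2.2
    rw [Prod.mk.injEq] at h2
    exact ⟨hrep _ _ h2.1, h2.2⟩
  · rintro ⟨e, x⟩ u ⟨e', x'⟩ u' h
    unfold cdVf at h
    have h1 := encPair_inj h
    rw [Prod.mk.injEq, List.cons.injEq] at h1
    have h2 := encPair_inj h1.2.2
    rw [Prod.mk.injEq] at h2
    have h3 := encPair_inj h2.2
    rw [Prod.mk.injEq] at h3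
    exact ⟨Prod.ext (hrep _ _ h2.1) h3.1, h3.2⟩
  · intro t u r v h
    unfold cdHf cdVf at h
    have h1 := encPair_inj h
    rw [Prod.mk.injEq, List.cons.injEq] at h1
    exact absurd h1.2.1 (by decide)
  · intro t u
    apply le_cl_of_pd hc hq
    unfold cdHf
    rw [length_encPair, List.length_replicate]
    omega
  · rintro ⟨e, x⟩ u
    apply le_cl_of_pd hc hq
    unfold cdVf
    rw [length_encPair, List.length_replicate]
    dsimp only
    omega
  · rintro A ⟨e, x⟩ ⟨y, hy, hacc⟩
    have hL : (encPair (x, y)).length ≤ 2 * x.length + 2 + 2 ^ ((g e).2.2.2 * x.length +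
        (g e).2.2.2) := by
      rw [length_encPair]
      dsimp only at hy
      omega
    obtain ⟨S, hS, h⟩ := answers_pol hlam (g e).q (encPair (x, y)) A
      ((Q e).eval (2 * (encPair (x, y)).length + 2 + (g e).2.2.1.eval (encPair (x, y)).length))
      ((g e).2.2.1.eval (encPair (x, y)).length) (fun i hi => by
        refine (hQ e _).trans (evalMono (Q e) ?_)
        dsimp only
        rw [answers_length]
        omega)
    refine ⟨S, hS.trans (hκ2 e _ _ hL), fun B hB => ⟨y, hy, ?_⟩⟩
    unfold Mach.Acc1 at hacc ⊢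
    rw [← h B hB _ le_rfl]
    exact hacc

end Pool.Agent.PFQ
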