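import Pool.Agent.PFP.Upper
import Pool.Agent.PFQ.Limit
import Pool.Agent.PFQ.Sys

/-!
An oracle relative to which `NE` is decided with short queries and short certificates.
-/

set_option autoImplicit false

namespace Pool.Agent.PFQ

open Turing Computability Lib.helper60 MP_92db0f_lc_alg
open MP_92db0f_lc hiding answers InNEXP
open MP_92db0f_lc_thr (cls Dg sb hs Off lg rtc pcf τf lg_eq lt_τf lg_spec
  Off_mono Off_succ two_pow_τf hs_take length_hs_Dg length_sb answers_getD exists_machN NAcc)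
open PFP (InNE InQ Certified memory charge roundCharge rR polyTime_rR clf clf_le cdHf cdVf mq md mu
  ma PT_mq PT_md PT_mu PT_ma ma_eq mq_lt mq_eq mq_gt off_τ off_le level_pow_le length_cdHf
  length_cdVf sum_profile mem_join_true memory_eq)

lemma mem_Phi_false {c : ℕ} [Fact c.Prime] {lam : List Bool → Pol c}
    (hlam : ∀ w, lam (false :: w) = MvPolynomial.X w)
    (A : Set (List Bool)) (w : List Bool) : false :: w ∈ Phi lam A ↔ w ∈ A := by
  change val A (lam (false :: w)) = 1 ↔ w ∈ A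
  rw [hlam]
  unfold val ind
  rw [MvPolynomial.eval_X]
  by_cases h : w ∈ A
  · rw [if_pos h]
    exact iff_of_true rfl h
  · rw [if_neg h]
    exact iff_of_false zero_ne_one h

/-! ### the upper bounds -/

/-- **Many short queries.** -/
theorem upper_long (c : ℕ) [Fact c.Prime] {a b p q : ℕ} (hb : 1 ≤ b) (hab : b ≤ a) (hq : 1 ≤ q) (hp : 1 ≤ p)
    {s t w : ℝ} (hs1 : 1 ≤ s) (h1 : (p : ℝ) / q ≤ t) (h2 : ((a : ℝ) * q) / (b * p) ≤ s)
    (h3 : (b : ℝ) / a + (q : ℝ) / p ≤ s) (h4 : (b : ℝ) / a ≤ (q : ℝ) / p) (h5 : (b : ℝ) / a ≤ w)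
    (lam : List Bool → Pol c) (hlam : ∀ w, lam (false :: w) = MvPolynomial.X w)
    (hdeg : ∀ w, (lam w).totalDegree ≤ w.length) :
    ∃ A₀ : Set (List Bool), ∀ L, InNE (Phi lam A₀) L → ∀ α, InQ (Phi lam A₀) s t w α 1 L := by
  classical
  obtain ⟨g, hg⟩ := exists_surjective_nat Mach
  obtain ⟨Y, κ, f, hκ1, hlv, hτ, hcl, hcdH, hcdV, hacc⟩ := exists_sys hb hab hq hp lam hdeg g
  obtain ⟨A, H, on, hH, hon, hcodeH, hcodeV⟩ := exists_limit Y
  refine ⟨A, fun L hL α => ?_⟩
  obtain ⟨μ, hμ⟩ := exists_machN hL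
  obtain ⟨e, rfl⟩ := hg μ
  obtain ⟨k, hk⟩ : ∃ k, k = κ e := ⟨_, rfl⟩
  have hk1 : 1 ≤ k := by rw [hk]; exact hκ1 e
  have ha : 1 ≤ a := hb.trans hab
  have hm1 : ∀ n, 1 ≤ k * (n + 1) := fun n => Nat.mul_pos hk1 (by omega)
  have hba0 : (0 : ℝ) ≤ (b : ℝ) / a := by positivity
  -- the answers
  obtain ⟨B, hB⟩ : ∃ B, B = Certified (rR p q (Phi lam A)) := ⟨_, rfl⟩
  have hBm : ∀ z, z ∈ B ↔ ∃ b, b.length = clf p q z ∧ encPair (z, b) ∈ A := by
    intro z
    rw [hB]
    exact exists_congr fun y => and_congr_right fun _ => mem_Phi_false hlam A _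
  have hans : ∀ x : List Bool, ∀ i ≤ Off (τf a b (k * (x.length + 1))),
      answers B (mq a b p q e k) x i = (hs Dg H (τf a b (k * (x.length + 1)))).take i := by
    intro x i
    induction i with
    | zero => intro _; rfl
    | succ i ih =>
      intro hi
      obtain ⟨h1, h2⟩ := lg_spec i
      obtain ⟨t, ht⟩ : ∃ t, t = lg i := ⟨_, rfl⟩
      obtain ⟨j, hj⟩ := Nat.exists_eq_add_of_le h1
      rw [← ht] at hj h2
      have hjD : j < Dg t := by
        rw [Off_succ] at h2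
        omega
      have htτ : t < τf a b (k * (x.length + 1)) := by
        by_contra h
        have := Off_mono (not_lt.1 h)
        omega
      have h3 := ih (by omega)
      rw [answers, h3, hj, hs_take H htτ hjD.le, Nat.add_assoc, hs_take H htτ hjD, sb,
        List.append_assoc]
      congr 3
      rw [mq_lt hb hab htτ hjD (by rw [List.length_append, length_hs_Dg, length_sb]),
        List.drop_append_of_le_length (by rw [length_hs_Dg]),
        List.drop_of_length_le (by rw [length_hs_Dg]), List.nil_append, Bool.eq_iff_iff,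
        decide_eq_true_iff, decide_eq_true_iff, hBm]
      have h4 := hcodeH t (sb (Dg t) (H t) j) (by rw [length_sb]; exact hjD)
      rw [hcdH, hcl] at h4
      exact h4
  have hfull : ∀ x : List Bool,
      answers B (mq a b p q e k) x (Off (τf a b (k * (x.length + 1)))) =
        hs Dg H (τf a b (k * (x.length + 1))) := by
    intro x
    rw [hans x _ le_rfl, List.take_of_length_le (by rw [length_hs_Dg])]
  -- the number of the queries
  obtain ⟨N, hN⟩ : ∃ N : Polynomial ℕ, ∀ n, N.eval n = 10 * k * (n + 1) + 1 :=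
    ⟨Polynomial.C (10 * k) * (Polynomial.X + 1) + 1, fun n => by simp⟩
  have hoffN : ∀ n, Off (τf a b (k * (n + 1))) + 1 ≤ N.eval n := by
    intro n
    have h6 := two_pow_τf hb hab (hm1 n)
    rw [hN, Nat.mul_assoc]
    unfold Off
    omega
  have hmem : ∀ (x : List Bool) (i : ℕ),
      memory (join (Phi lam A) B) (fun z => true :: mq a b p q e k (z.1.1.1, z.1.2)) (mu a b k)
        (x, []) 1 i =
        answers B (mq a b p q e k) x (min i (Off (τf a b (k * (x.length + 1))) + 1)) :=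
    fun x i => memory_eq hb hab hk1 _ _ x i
  -- the constant
  obtain ⟨K, hK⟩ : ∃ K : ℝ, K = 20 * (2 * ((10 : ℝ) ^ ((q : ℝ) / p) + 1) + 31) +
    (2 * ((30 : ℝ) ^ ((q : ℝ) / p) + 1) + 21 + 2 * e) := ⟨_, rfl⟩
  have hk0 : (0 : ℝ) ≤ k := Nat.cast_nonneg k
  have he0 : (0 : ℝ) ≤ e := Nat.cast_nonneg e
  have hK0 : (0 : ℝ) ≤ K := by
    rw [hK]
    positivity
  obtain ⟨C, hC⟩ := exists_nat_ge (K * (2 * ((k : ℝ) + 1)) ^ s + 21 * (2 * ((k : ℝ) + 1)) ^ w + 1)
  have hks : (0 : ℝ) ≤ (2 * ((k : ℝ) + 1)) ^ s := by positivity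
  have hkw : (0 : ℝ) ≤ (2 * ((k : ℝ) + 1)) ^ w := by positivity
  have hKs : 0 ≤ K * (2 * ((k : ℝ) + 1)) ^ s := mul_nonneg hK0 hks
  refine ⟨rR p q (Phi lam A), fun z => true :: mq a b p q e k (z.1.1.1, z.1.2), mu a b k,
    fun z => md a b k (z.1.1, z.2), fun _ => [], N, C, polyTime_rR p q _, ?_, ?_, ?_, ?_, ?_,
    fun x => ⟨?_, ?_, ?_⟩⟩
  · have h6 : PT (fun w : List Bool => unpair (unpair w).1) := PT_unpair.comp PT_unpair.p1
    refine PT.toTM2 (F := fun w => true :: mq a b p q e k ((unpair (unpair (unpair w).1).1).1,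
      (unpair (unpair w).1).2)) (PT.cons (PT.const true) ((PT_mq e k).comp
        (PT.pair (PT_unpair.comp h6.p1).p1 h6.p2))) ?_
    intro z
    simp only [unpair_enc]
  · have h6 : PT (fun w : List Bool => unpair (unpair w).1) := PT_unpair.comp PT_unpair.p1
    refine PT.toTM2 (F := fun w => mu a b k ((unpair (unpair (unpair w).1).1,
      (unpair (unpair w).1).2), (unpair w).2)) ((PT_mu k).comp (PT.pair (PT.pair
        (PT_unpair.comp h6.p1) h6.p2) PT_unpair.p2)) ?_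
    intro z
    simp only [unpair_enc]
  · refine PT.decider (F := fun w => md a b k ((unpair (unpair w).1).1, (unpair w).2))
      ((PT_md k).comp (PT.pair (PT_unpair.comp PT_unpair.p1).p1 PT_unpair.p2)) ?_
    intro z
    simp only [unpair_enc]
  · rintro Q y ⟨h6, -⟩
    dsimp only at h6
    have h7 := clf_le hq hp Q h1
    have h8 : (0 : ℝ) ≤ (Q.length : ℝ) ^ t := Real.rpow_nonneg (Nat.cast_nonneg _) _
    rw [h6]
    nlinarith
  · intro n
    have h6 : (0 : ℝ) ≤ (n : ℝ) ^ α := Real.rpow_nonneg (Nat.cast_nonneg _) _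
    simp only [List.length_nil, Nat.cast_zero]
    positivity
  · -- the decision
    rw [← hB, Polynomial.eval_one, hmem, min_eq_right (hoffN _)]
    unfold md
    dsimp only
    rw [off_τ hb hab (hm1 _), answers_getD B _ _ (Nat.lt_succ_self _), hfull x,
      mq_eq hb hab hk1 (by rw [length_hs_Dg]), decide_eq_true_eq, hBm, hμ x]
    have h1 := hcodeV (f (e, x))
    rw [hlv, hτ, hcdV, hcl] at h1
    have h2 := (hon (f (e, x))).symm.trans (hacc A (e, x))
    change _ ↔ _ at h2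
    rw [← h1] at h2
    rw [hk]
    exact h2.symm
  · -- the memory
    intro i _
    rw [← hB, Polynomial.eval_one, hmem, answers_length]
    obtain ⟨X, hX⟩ : ∃ X : ℝ, X = ((k * (x.length + 1) : ℕ) : ℝ) + 1 := ⟨_, rfl⟩
    have hX1 : (1 : ℝ) ≤ X := by
      rw [hX]
      have : (0 : ℝ) ≤ ((k * (x.length + 1) : ℕ) : ℝ) := Nat.cast_nonneg _
      linarith
    have h6 := off_le hb hab hX
    have h7 : X ^ ((b : ℝ) / a) ≤ X ^ w := Real.rpow_le_rpow_of_exponent_le hX1 h5
    have h8 := level_pow_le hX (hba0.trans h5)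
    have h9 : (1 : ℝ) ≤ X ^ w := Real.one_le_rpow hX1 (hba0.trans h5)
    have h10 : ((min i (Off (τf a b (k * (x.length + 1))) + 1) : ℕ) : ℝ) ≤
        ((Off (τf a b (k * (x.length + 1))) : ℕ) : ℝ) + 1 := by
      exact_mod_cast min_le_right _ _
    have h11 : (0 : ℝ) ≤ (x.length : ℝ) ^ w := Real.rpow_nonneg (Nat.cast_nonneg _) _
    calc ((min i (Off (τf a b (k * (x.length + 1))) + 1) : ℕ) : ℝ) ≤ 21 * X ^ w := by linarith
      _ ≤ 21 * ((2 * ((k : ℝ) + 1)) ^ w * ((x.length : ℝ) ^ w + 1)) :=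
          mul_le_mul_of_nonneg_left h8 (by norm_num)
      _ = (21 * (2 * ((k : ℝ) + 1)) ^ w) * ((x.length : ℝ) ^ w + 1) := by ring
      _ ≤ C * ((x.length : ℝ) ^ w + 1) := mul_le_mul_of_nonneg_right (by linarith) (by linarith)
      _ = C * (x.length : ℝ) ^ w + C := by ring
  · -- the total length
    rw [← hB]
    obtain ⟨m, hm⟩ : ∃ m, m = k * (x.length + 1) := ⟨_, rfl⟩
    obtain ⟨X, hX⟩ : ∃ X : ℝ, X = m + 1 := ⟨_, rfl⟩
    have hX1 : (1 : ℝ) ≤ X := by
      rw [hX]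
      have : (0 : ℝ) ≤ m := Nat.cast_nonneg m
      linarith
    obtain ⟨r, hr⟩ : ∃ r : ℕ → ℕ, r = fun i => roundCharge (join (Phi lam A) B)
      (fun z => true :: mq a b p q e k (z.1.1.1, z.1.2)) (mu a b k) (x, []) 1 i := ⟨_, rfl⟩
    have hr1 : ∀ i, r i = (mq a b p q e k (x, answers B (mq a b p q e k) x
        (min i (Off (τf a b m) + 1)))).length := by
      intro i
      rw [hr]
      unfold roundCharge
      simp only [Finset.range_one, Finset.sup_singleton]
      rw [hmem, hm]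
      rfl
    have hvl : ∀ i, (answers B (mq a b p q e k) x i).length = i := fun i => answers_length _ _ _ _
    have hr2 : ∀ i, Off (τf a b m) < i → r i = 0 := by
      intro i hi
      rw [hr1, min_eq_right (by omega), mq_gt hb hab hk1 (by rw [hvl, ← hm]; omega)]
      rfl
    have hr3 : ∑ i ∈ Finset.range (N.eval x.length), roundCharge (join (Phi lam A) B)
        (fun z => true :: mq a b p q e k (z.1.1.1, z.1.2)) (mu a b k) (x, [])
        ((1 : Polynomial ℕ).eval x.length) i = ∑ i ∈ Finset.range (Off (τf a b m) + 1), r i := by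
      rw [Polynomial.eval_one, hr]
      refine (Finset.sum_subset (Finset.range_subset_range.2 (by
        rw [hm]
        exact hoffN x.length)) ?_).symm
      intro i _ hi
      rw [Finset.mem_range, not_lt] at hi
      have h6 := hr2 i hi
      rw [hr] at h6
      exact h6
    have h6 : ((∑ i ∈ Finset.range (Off (τf a b m) + 1), r i : ℕ) : ℝ) ≤
        Off (τf a b m) * ((2 * ((10 : ℝ) ^ ((q : ℝ) / p) + 1) + 31) * X ^ ((q : ℝ) / p)) +
          (2 * ((30 : ℝ) ^ ((q : ℝ) / p) + 1) + 21 + 2 * e) * X ^ s := by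
      rw [Nat.cast_sum]
      refine sum_profile (fun i => ((r i : ℕ) : ℝ)) ?_ ?_
      · intro i hi
        obtain ⟨h7, h8⟩ := lg_spec i
        obtain ⟨j, hj⟩ := Nat.exists_eq_add_of_le h7
        have hjD : j < Dg (lg i) := by
          rw [Off_succ] at h8
          omega
        have htτ : lg i < τf a b m := by
          by_contra h'
          have := Off_mono (not_lt.1 h')
          omega
        rw [hr1, min_eq_left (by omega),
          mq_lt hb hab (by rw [← hm]; exact htτ) hjD (by rw [hvl]; exact hj)]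
        exact length_cdHf hb hab hp h4 htτ (by rw [List.length_drop, hvl]; omega) hX
      · rw [hr1, min_eq_left (by omega), mq_eq hb hab hk1 (by rw [hvl, hm])]
        exact length_cdVf hb hab hp hs1 h2 hk1 hm (by rw [hvl]) hX
    have h7 := off_le hb hab hX
    have h8 : X ^ ((b : ℝ) / a) * X ^ ((q : ℝ) / p) ≤ X ^ s := by
      rw [← Real.rpow_add (by linarith)]
      exact Real.rpow_le_rpow_of_exponent_le hX1 h3
    have h10 : ((Off (τf a b m) : ℕ) : ℝ) *
        ((2 * ((10 : ℝ) ^ ((q : ℝ) / p) + 1) + 31) * X ^ ((q : ℝ) / p)) ≤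
          20 * (2 * ((10 : ℝ) ^ ((q : ℝ) / p) + 1) + 31) * X ^ s := by
      calc ((Off (τf a b m) : ℕ) : ℝ) *
            ((2 * ((10 : ℝ) ^ ((q : ℝ) / p) + 1) + 31) * X ^ ((q : ℝ) / p)) ≤
            (20 * X ^ ((b : ℝ) / a)) *
              ((2 * ((10 : ℝ) ^ ((q : ℝ) / p) + 1) + 31) * X ^ ((q : ℝ) / p)) :=
            mul_le_mul_of_nonneg_right h7 (by positivity)
        _ = 20 * (2 * ((10 : ℝ) ^ ((q : ℝ) / p) + 1) + 31) *
              (X ^ ((b : ℝ) / a) * X ^ ((q : ℝ) / p)) := by ring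
        _ ≤ _ := mul_le_mul_of_nonneg_left h8 (by positivity)
    have h11 : X ^ s ≤ (2 * ((k : ℝ) + 1)) ^ s * ((x.length : ℝ) ^ s + 1) :=
      level_pow_le (by rw [hX, hm]) (by linarith)
    have h12 : (0 : ℝ) ≤ (x.length : ℝ) ^ s := Real.rpow_nonneg (Nat.cast_nonneg _) _
    rw [hr3]
    calc ((∑ i ∈ Finset.range (Off (τf a b m) + 1), r i : ℕ) : ℝ) ≤ K * X ^ s := by
          rw [hK]
          linarith
      _ ≤ K * ((2 * ((k : ℝ) + 1)) ^ s * ((x.length : ℝ) ^ s + 1)) :=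
          mul_le_mul_of_nonneg_left h11 hK0
      _ = (K * (2 * ((k : ℝ) + 1)) ^ s) * ((x.length : ℝ) ^ s + 1) := by ring
      _ ≤ C * ((x.length : ℝ) ^ s + 1) := mul_le_mul_of_nonneg_right (by linarith) (by linarith)
      _ = C * (x.length : ℝ) ^ s + C := by ring

/-- **One query with advice.** -/
theorem upper_adv (c : ℕ) [Fact c.Prime] {a b p q : ℕ} (hb : 1 ≤ b) (hab : b ≤ a) (hq : 1 ≤ q) (hp : 1 ≤ p)
    {s t α : ℝ} (hs1 : 1 ≤ s) (h1 : (p : ℝ) / q ≤ t) (h2 : ((a : ℝ) * q) / (b * p) ≤ s)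
    (h5 : (b : ℝ) / a ≤ α)
    (lam : List Bool → Pol c) (hlam : ∀ w, lam (false :: w) = MvPolynomial.X w)
    (hdeg : ∀ w, (lam w).totalDegree ≤ w.length) :
    ∃ A₀ : Set (List Bool), ∀ L, InNE (Phi lam A₀) L → ∀ w, InQ (Phi lam A₀) s t w α 1 L := by
  classical
  obtain ⟨g, hg⟩ := exists_surjective_nat Mach
  obtain ⟨Y, κ, f, hκ1, hlv, hτ, hcl, hcdH, hcdV, hacc⟩ := exists_sys hb hab hq hp lam hdeg g
  obtain ⟨A, H, on, hH, hon, hcodeH, hcodeV⟩ := exists_limit Y
  refine ⟨A, fun L hL w => ?_⟩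
  obtain ⟨μ, hμ⟩ := exists_machN hL
  obtain ⟨e, rfl⟩ := hg μ
  obtain ⟨k, hk⟩ : ∃ k, k = κ e := ⟨_, rfl⟩
  have hk1 : 1 ≤ k := by rw [hk]; exact hκ1 e
  have ha : 1 ≤ a := hb.trans hab
  have hm1 : ∀ n, 1 ≤ k * (n + 1) := fun n => Nat.mul_pos hk1 (by omega)
  have hba0 : (0 : ℝ) ≤ (b : ℝ) / a := by positivity
  obtain ⟨B, hB⟩ : ∃ B, B = Certified (rR p q (Phi lam A)) := ⟨_, rfl⟩
  have hBm : ∀ z, z ∈ B ↔ ∃ b, b.length = clf p q z ∧ encPair (z, b) ∈ A := by
    intro z
    rw [hB]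
    exact exists_congr fun y => and_congr_right fun _ => mem_Phi_false hlam A _
  -- the constant
  obtain ⟨K, hK⟩ : ∃ K : ℝ, K = 2 * ((30 : ℝ) ^ ((q : ℝ) / p) + 1) + 21 + 2 * e := ⟨_, rfl⟩
  have hk0 : (0 : ℝ) ≤ k := Nat.cast_nonneg k
  have he0 : (0 : ℝ) ≤ e := Nat.cast_nonneg e
  have hK0 : (0 : ℝ) ≤ K := by
    rw [hK]
    positivity
  obtain ⟨C, hC⟩ := exists_nat_ge (K * (2 * ((k : ℝ) + 1)) ^ s + 20 * (2 * ((k : ℝ) + 1)) ^ α + 1)
  have hks : (0 : ℝ) ≤ (2 * ((k : ℝ) + 1)) ^ s := by positivity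
  have hkα : (0 : ℝ) ≤ (2 * ((k : ℝ) + 1)) ^ α := by positivity
  have hKs : 0 ≤ K * (2 * ((k : ℝ) + 1)) ^ s := mul_nonneg hK0 hks
  refine ⟨rR p q (Phi lam A), fun z => true :: ma a b p q e k z.1.1, fun z => z.2,
    fun z => z.2.headD false, fun n => hs Dg H (τf a b (k * (n + 1))), 1, C,
    polyTime_rR p q _, ?_, ?_, ?_, ?_, ?_, fun x => ⟨?_, ?_, ?_⟩⟩
  · have h6 : PT (fun w : List Bool => unpair (unpair w).1) := PT_unpair.comp PT_unpair.p1
    refine PT.toTM2 (F := fun w => true :: ma a b p q e k (unpair (unpair (unpair w).1).1))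
      (PT.cons (PT.const true) ((PT_ma e k).comp (PT_unpair.comp h6.p1))) ?_
    intro z
    simp only [unpair_enc]
  · refine PT.toTM2 (F := fun w => (unpair w).2) PT_unpair.p2 ?_
    intro z
    simp only [unpair_enc]
  · refine PT.decider (F := fun w => (unpair w).2.headD false)
      (PT.headD PT_unpair.p2 (PT.const false)) ?_
    intro z
    simp only [unpair_enc]
  · rintro Q y ⟨h6, -⟩
    dsimp only at h6
    have h7 := clf_le hq hp Q h1
    have h8 : (0 : ℝ) ≤ (Q.length : ℝ) ^ t := Real.rpow_nonneg (Nat.cast_nonneg _) _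
    rw [h6]
    nlinarith
  · intro n
    rw [length_hs_Dg]
    obtain ⟨X, hX⟩ : ∃ X : ℝ, X = ((k * (n + 1) : ℕ) : ℝ) + 1 := ⟨_, rfl⟩
    have hX1 : (1 : ℝ) ≤ X := by
      rw [hX]
      have : (0 : ℝ) ≤ ((k * (n + 1) : ℕ) : ℝ) := Nat.cast_nonneg _
      linarith
    have h6 := off_le hb hab hX
    have h7 : X ^ ((b : ℝ) / a) ≤ X ^ α := Real.rpow_le_rpow_of_exponent_le hX1 h5
    have h8 := level_pow_le hX (hba0.trans h5)
    have h11 : (0 : ℝ) ≤ (n : ℝ) ^ α := Real.rpow_nonneg (Nat.cast_nonneg _) _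
    calc ((Off (τf a b (k * (n + 1))) : ℕ) : ℝ) ≤ 20 * X ^ α := by linarith
      _ ≤ 20 * ((2 * ((k : ℝ) + 1)) ^ α * ((n : ℝ) ^ α + 1)) :=
          mul_le_mul_of_nonneg_left h8 (by norm_num)
      _ = (20 * (2 * ((k : ℝ) + 1)) ^ α) * ((n : ℝ) ^ α + 1) := by ring
      _ ≤ C * ((n : ℝ) ^ α + 1) := mul_le_mul_of_nonneg_right (by linarith) (by linarith)
      _ = C * (n : ℝ) ^ α + C := by ring
  · -- the decision
    rw [← hB, Polynomial.eval_one]
    change x ∈ L ↔ List.headD [decide (true :: ma a b p q e k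
      (x, hs Dg H (τf a b (k * (x.length + 1)))) ∈ join (Phi lam A) B)] false = true
    rw [List.headD_cons, decide_eq_true_eq, mem_join_true, ma_eq, hBm, hμ x]
    have h1 := hcodeV (f (e, x))
    rw [hlv, hτ, hcdV, hcl] at h1
    have h2 := (hon (f (e, x))).symm.trans (hacc A (e, x))
    change _ ↔ _ at h2
    rw [← h1] at h2
    rw [hk]
    exact h2.symm
  · -- the memory
    intro i _
    rw [← hB, Polynomial.eval_one]
    have h6 : (memory (join (Phi lam A) B) (fun z => true :: ma a b p q e k z.1.1) (fun z => z.2)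
        (x, hs Dg H (τf a b (k * (x.length + 1)))) 1 i).length ≤ 1 := by
      rcases i with _ | i
      · exact Nat.zero_le _
      · rw [memory]
        simp
    have h7 : ((memory (join (Phi lam A) B) (fun z => true :: ma a b p q e k z.1.1)
        (fun z => z.2) (x, hs Dg H (τf a b (k * (x.length + 1)))) 1 i).length : ℝ) ≤ 1 := by
      exact_mod_cast h6
    have h8 : (0 : ℝ) ≤ (x.length : ℝ) ^ w := Real.rpow_nonneg (Nat.cast_nonneg _) _
    have h9 : (1 : ℝ) ≤ C := by linarith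
    nlinarith
  · -- the total length
    rw [← hB, Polynomial.eval_one, Finset.sum_range_one]
    unfold roundCharge
    simp only [Finset.range_one, Finset.sup_singleton, charge]
    rw [ma_eq]
    obtain ⟨m, hm⟩ : ∃ m, m = k * (x.length + 1) := ⟨_, rfl⟩
    obtain ⟨X, hX⟩ : ∃ X : ℝ, X = m + 1 := ⟨_, rfl⟩
    have h6 := length_cdVf (q := q) (e := e) hb hab hp hs1 h2 hk1 hm
      (v := hs Dg H (τf a b (k * (x.length + 1)))) (by rw [length_hs_Dg, hm]) hX
    have h11 : X ^ s ≤ (2 * ((k : ℝ) + 1)) ^ s * ((x.length : ℝ) ^ s + 1) :=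
      level_pow_le (by rw [hX, hm]) (by linarith)
    have h12 : (0 : ℝ) ≤ (x.length : ℝ) ^ s := Real.rpow_nonneg (Nat.cast_nonneg _) _
    rw [← hK] at h6
    refine h6.trans ?_
    calc K * X ^ s ≤ K * ((2 * ((k : ℝ) + 1)) ^ s * ((x.length : ℝ) ^ s + 1)) :=
          mul_le_mul_of_nonneg_left h11 hK0
      _ = (K * (2 * ((k : ℝ) + 1)) ^ s) * ((x.length : ℝ) ^ s + 1) := by ring
      _ ≤ C * ((x.length : ℝ) ^ s + 1) := mul_le_mul_of_nonneg_right (by linarith) (by linarith)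
      _ = C * (x.length : ℝ) ^ s + C := by ring

end Pool.Agent.PFQ
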