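import Pool.Agent.PFQ.CDefs
import Mathlib.FieldTheory.ChevalleyWarning

/-!
By the theorem of Chevalley and Warning, a set with more points than `p - 1` times the sum of the
degrees of finitely many polynomials over the field with `p` elements has a nonempty subset that no
polynomial sees.
-/

set_option autoImplicit false

namespace Pool.Agent.PFQ

open MvPolynomial

variable {p : ℕ}

/-- substitution of polynomials of degree at most `k` -/
lemma totalDegree_aeval_le {σ τ : Type*} (g : σ → MvPolynomial τ (ZMod p)) (k : ℕ)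
    (hg : ∀ i, (g i).totalDegree ≤ k) (f : MvPolynomial σ (ZMod p)) :
    (aeval g f).totalDegree ≤ k * f.totalDegree := by
  rw [aeval_def, eval₂_eq]
  refine totalDegree_finsetSum_le fun d hd => ?_
  refine (totalDegree_mul _ _).trans ?_
  have h1 : (algebraMap (ZMod p) (MvPolynomial τ (ZMod p)) (coeff d f)).totalDegree = 0 :=
    totalDegree_C _
  rw [h1, Nat.zero_add]
  refine (totalDegree_finsetProd _ _).trans ?_
  have h2 : ∑ i ∈ d.support, (g i ^ d i).totalDegree ≤ ∑ i ∈ d.support, k * d i := by
    refine Finset.sum_le_sum fun i _ => ?_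
    refine (totalDegree_pow _ _).trans ?_
    rw [mul_comm k]
    exact Nat.mul_le_mul_left _ (hg i)
  rw [← Finset.mul_sum] at h2
  exact h2.trans (Nat.mul_le_mul_left k (le_totalDegree hd))

/-- the value of a polynomial after a substitution -/
lemma eval_aeval {σ τ : Type*} (g : σ → MvPolynomial τ (ZMod p)) (x : τ → ZMod p)
    (f : MvPolynomial σ (ZMod p)) : eval x (aeval g f) = eval (fun i => eval x (g i)) f := by
  induction f using MvPolynomial.induction_on with
  | C a =>
    rw [aeval_C, eval_C]
    exact eval_C a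
  | add f g hf hg => rw [map_add, map_add, map_add, hf, hg]
  | mul_X f i hf => rw [map_mul, map_mul, map_mul, hf, aeval_X, eval_X]

/-- **The block lemma.** If `p - 1` times the sum of the degrees is smaller than the number of the
points, then some nonempty set of points is invisible. -/
theorem exists_invisible [Fact p.Prime] (A : Set (List Bool)) (U : Finset (List Bool))
    (S : Finset (Pol p)) (hUA : ∀ x ∈ U, x ∉ A)
    (h : ∑ f ∈ S, (p - 1) * f.totalDegree < U.card) :
    ∃ T : Finset (List Bool), T ⊆ U ∧ T.Nonempty ∧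
      ∀ f ∈ S, val A f = val (A ∪ (T : Set (List Bool))) f := by
  classical
  have hp1 : 0 < p - 1 := Nat.sub_pos_of_lt (Fact.out : p.Prime).one_lt
  let g : List Bool → MvPolynomial U (ZMod p) :=
    fun u => if hu : u ∈ U then X ⟨u, hu⟩ ^ (p - 1) else C (ind p A u)
  have hg : ∀ i, (g i).totalDegree ≤ p - 1 := by
    intro i
    by_cases hi : i ∈ U
    · simp only [g, dif_pos hi]
      refine (totalDegree_pow _ _).trans ?_
      rw [totalDegree_X, Nat.mul_one]
    · simp only [g, dif_neg hi, totalDegree_C]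
      exact Nat.zero_le _
  let F : Pol p → MvPolynomial U (ZMod p) := fun f => aeval g f - C (val A f)
  have hF : ∀ f, (F f).totalDegree ≤ (p - 1) * f.totalDegree := fun f =>
    (totalDegree_sub_C_le _ _).trans (totalDegree_aeval_le g (p - 1) hg f)
  have hev : ∀ (x : U → ZMod p) (f : Pol p), eval x (F f) = 0 ↔
      eval (fun i => eval x (g i)) f = val A f := by
    intro x f
    change eval x (aeval g f - C (val A f)) = 0 ↔ _
    rw [map_sub, eval_C, sub_eq_zero, eval_aeval]
  have h0 : ∀ f ∈ S, eval (0 : U → ZMod p) (F f) = 0 := by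
    intro f _
    rw [hev]
    unfold val
    congr 2
    funext u
    by_cases hu : u ∈ U
    · simp only [g, dif_pos hu, map_pow, eval_X, Pi.zero_apply]
      unfold ind
      rw [if_neg (hUA u hu), zero_pow hp1.ne']
    · simp only [g, dif_neg hu, eval_C]
  have hcw := char_dvd_card_solutions_of_sum_lt (K := ZMod p) (σ := U) p (s := S) (f := F)
    (lt_of_le_of_lt (Finset.sum_le_sum fun f _ => hF f) (by rw [Fintype.card_coe]; exact h))
  have hpos : 0 < Fintype.card {x : U → ZMod p // ∀ f ∈ S, eval x (F f) = 0} :=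
    Fintype.card_pos_iff.2 ⟨⟨0, h0⟩⟩
  have h2 : 1 < Fintype.card {x : U → ZMod p // ∀ f ∈ S, eval x (F f) = 0} :=
    lt_of_lt_of_le (Fact.out : p.Prime).one_lt (Nat.le_of_dvd hpos hcw)
  obtain ⟨⟨x, hx⟩, hne⟩ := Fintype.exists_ne_of_one_lt_card h2 ⟨0, h0⟩
  have hx0 : x ≠ 0 := fun h => hne (Subtype.ext h)
  let T : Finset (List Bool) := (Finset.univ.filter fun u : U => x u ≠ 0).image Subtype.val
  have hT : ∀ u (hu : u ∈ U), u ∈ T ↔ x ⟨u, hu⟩ ≠ 0 := by
    intro u hu
    simp only [T, Finset.mem_image, Finset.mem_filter, Finset.mem_univ, true_and]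
    constructor
    · rintro ⟨v, hv, rfl⟩
      exact hv
    · intro h
      exact ⟨⟨u, hu⟩, h, rfl⟩
  have hTU : T ⊆ U := by
    intro u hu
    obtain ⟨v, -, rfl⟩ := Finset.mem_image.1 hu
    exact v.2
  refine ⟨T, hTU, ?_, ?_⟩
  · obtain ⟨u, hu⟩ : ∃ u, x u ≠ 0 := by
      by_contra hcon
      push Not at hcon
      exact hx0 (funext hcon)
    exact ⟨u.1, (hT u.1 u.2).2 hu⟩
  · intro f hf
    have h3 := (hev x f).1 (hx f hf)
    rw [← h3]
    unfold val
    congr 2
    funext u
    by_cases hu : u ∈ U
    · simp only [g, dif_pos hu, map_pow, eval_X]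
      unfold ind
      have h4 : u ∈ A ∪ (T : Set (List Bool)) ↔ x ⟨u, hu⟩ ≠ 0 := by
        rw [Set.mem_union, Finset.mem_coe, hT u hu]
        constructor
        · rintro (h5 | h5)
          · exact absurd h5 (hUA u hu)
          · exact h5
        · exact Or.inr
      by_cases h5 : x ⟨u, hu⟩ = 0
      · rw [if_neg fun h6 => h4.1 h6 h5, h5, zero_pow hp1.ne']
      · rw [if_pos (h4.2 h5), ZMod.pow_card_sub_one_eq_one h5]
    · simp only [g, dif_neg hu, eval_C]
      unfold ind
      have h4 : u ∈ A ∪ (T : Set (List Bool)) ↔ u ∈ A := by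
        rw [Set.mem_union, Finset.mem_coe]
        exact or_iff_left fun h5 => hu (hTU h5)
      by_cases h5 : u ∈ A
      · rw [if_pos h5, if_pos (h4.2 h5)]
      · rw [if_neg h5, if_neg fun h6 => h5 (h4.1 h6)]

end Pool.Agent.PFQ
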