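import Pool.Agent.PFQ.Defs
import Pool.Agent.MP_92db0f_lc_thr.Growth

/-!
Probes are polynomials over the field with `p` elements in the values of the oracle.
-/

set_option autoImplicit false

namespace Pool.Agent.PFQ

open Computability Lib.helper60

/-- the polynomials over the field with `p` elements in the values of the oracle -/
abbrev Pol (p : ℕ) : Type := MvPolynomial (List Bool) (ZMod p)

variable {p : ℕ}

open Classical in
/-- the characteristic function of the oracle -/
noncomputable def ind (p : ℕ) (A : Set (List Bool)) (u : List Bool) : ZMod p :=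
  if u ∈ A then 1 else 0

/-- the value of the polynomial `f` for the oracle `A` -/
noncomputable def val (A : Set (List Bool)) (f : Pol p) : ZMod p := MvPolynomial.eval (ind p A) f

/-- the polynomials in `S` have the same values for `A` and `B` -/
def Agree (A B : Set (List Bool)) (S : Finset (Pol p)) : Prop := ∀ f ∈ S, val A f = val B f

/-- the oracle of the values of the polynomials `lam w` for the oracle `A` -/
def Phi (lam : List Bool → Pol p) (A : Set (List Bool)) : Set (List Bool) := {w | val A (lam w) = 1}

/-- the weight of a finite set of polynomials -/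
noncomputable def wt (S : Finset (Pol p)) : ℕ := ∑ f ∈ S, (p - 1) * (f.totalDegree + 1)

/-- the polynomial `f` depends only on the strings of length at most `pl f` -/
noncomputable def pl (f : Pol p) : ℕ := f.vars.sup List.length

lemma Agree.refl (A : Set (List Bool)) (S : Finset (Pol p)) : Agree A A S := fun _ _ => rfl

lemma Agree.trans {A B D : Set (List Bool)} {S : Finset (Pol p)} (h : Agree A B S)
    (h' : Agree B D S) : Agree A D S := fun f hf => (h f hf).trans (h' f hf)

lemma Agree.symm {A B : Set (List Bool)} {S : Finset (Pol p)} (h : Agree A B S) :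
    Agree B A S := fun f hf => (h f hf).symm

lemma Agree.mono {A B : Set (List Bool)} {S T : Finset (Pol p)} (h : Agree A B T)
    (hST : S ⊆ T) : Agree A B S := fun f hf => h f (hST hf)

/-- only finitely many strings matter for the value of a polynomial -/
theorem val_congr' {A B : Set (List Bool)} {f : Pol p} (h : ∀ x ∈ f.vars, (x ∈ A ↔ x ∈ B)) :
    val A f = val B f := by
  unfold val
  refine MvPolynomial.eval₂Hom_congr' rfl ?_ rfl
  intro i hi _
  unfold ind
  have h1 := h i hi
  by_cases h2 : i ∈ A
  · rw [if_pos h2, if_pos (h1.1 h2)]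
  · rw [if_neg h2, if_neg fun h3 => h2 (h1.2 h3)]

theorem val_congr {A B : Set (List Bool)} {f : Pol p}
    (h : ∀ x : List Bool, x.length ≤ pl f → (x ∈ A ↔ x ∈ B)) : val A f = val B f :=
  val_congr' fun x hx => h x (Finset.le_sup (f := List.length) hx)

lemma wt_empty : wt (∅ : Finset (Pol p)) = 0 := by
  unfold wt
  rw [Finset.sum_empty]

lemma wt_mono {S T : Finset (Pol p)} (h : S ⊆ T) : wt S ≤ wt T := Finset.sum_le_sum_of_subset h

open Classical in
lemma wt_union_le (S T : Finset (Pol p)) : wt (S ∪ T) ≤ wt S + wt T := by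
  have h := Finset.sum_union_inter (s₁ := S) (s₂ := T)
    (f := fun f : Pol p => (p - 1) * (f.totalDegree + 1))
  unfold wt
  omega

open Classical in
lemma wt_biUnion_le {ι : Type*} (J : Finset ι) (f : ι → Finset (Pol p)) :
    wt (J.biUnion f) ≤ ∑ j ∈ J, wt (f j) := by
  induction J using Finset.induction_on with
  | empty =>
    rw [Finset.biUnion_empty, wt_empty]
    exact Nat.zero_le _
  | insert a J ha ih =>
    rw [Finset.biUnion_insert, Finset.sum_insert ha]
    exact (wt_union_le _ _).trans (Nat.add_le_add_left ih _)

open Classical in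
/-- the weight of finitely many polynomials of degree at most `d` -/
lemma wt_image_le {ι : Type*} (J : Finset ι) (f : ι → Pol p) (d : ℕ)
    (h : ∀ j ∈ J, (f j).totalDegree ≤ d) : wt (J.image f) ≤ J.card * ((p - 1) * (d + 1)) := by
  unfold wt
  refine (Finset.sum_le_card_nsmul _ _ ((p - 1) * (d + 1)) ?_).trans ?_
  · intro g hg
    obtain ⟨j, hj, rfl⟩ := Finset.mem_image.1 hg
    exact Nat.mul_le_mul_left _ (Nat.succ_le_succ (h j hj))
  · rw [smul_eq_mul]
    exact Nat.mul_le_mul_right _ Finset.card_image_le

/-- An oracle whose blocks with addresses in `G` are marked; the block of the address `z` consists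
of the strings `encPair (z, b)` with `|b| = cl z`. -/
structure Conf (cl : List Bool → ℕ) where
  G : Set (List Bool)
  A : Set (List Bool)
  mem : ∀ x ∈ A, ∃ z ∈ G, ∃ b : List Bool, b.length = cl z ∧ x = encPair (z, b)
  ex : ∀ z ∈ G, ∃ b : List Bool, b.length = cl z ∧ encPair (z, b) ∈ A

/-- A system of requirements. The requirement `r` has the level `lv r`; `acc A r` says that it is
accepted relative to the oracle `A`, and acceptance depends on polynomials of weight at most
`2 ^ lv r`. The actions of the requirements of class `t` do not injure the requirements of level at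
most `pc t`; the requirements of level `m` are injured by the actions of the classes below `τ m`.
The number of the actions of the class `t` is coded by the blocks `cdH t u`, the state of `r` after
the history `v` by the block `cdV r v`. -/
structure Sys (p : ℕ) where
  cl : List Bool → ℕ
  Req : Type
  lv : Req → ℕ
  Rq : ℕ → Finset Req
  mem_Rq : ∀ m r, r ∈ Rq m ↔ lv r = m
  card_Rq : ∀ m, (Rq m).card ≤ 2 ^ (2 * m + 2)
  cdH : ℕ → List Bool → List Bool
  cdV : Req → List Bool → List Bool
  cdH_inj : ∀ t u t' u', cdH t u = cdH t' u' → t = t' ∧ u = u'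
  cdV_inj : ∀ r v r' v', cdV r v = cdV r' v' → r = r' ∧ v = v'
  cd_ne : ∀ t u r v, cdH t u ≠ cdV r v
  pc : ℕ → ℕ
  τ : ℕ → ℕ
  pc_mono : ∀ i j, i ≤ j → pc i ≤ pc j
  τ_iff : ∀ t m, t < τ m ↔ pc t < m
  le_pc : ∀ m, m ≤ pc (MP_92db0f_lc_thr.cls m)
  cdH_cl : ∀ t u, 5 * pc t + 10 ≤ cl (cdH t u)
  cdV_cl : ∀ r v, 5 * pc (MP_92db0f_lc_thr.cls (lv r)) + 10 ≤ cl (cdV r v)
  acc : Set (List Bool) → Req → Prop
  use : ∀ A r, acc A r → ∃ S : Finset (Pol p), wt S ≤ 2 ^ lv r ∧ ∀ B, Agree A B S → acc B r

end Pool.Agent.PFQ
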