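import Pool.Agent.PFQ.CDefs

/-!
Every short rule is solved by polynomials: the bits of the oracle at the strings `false :: w` are
free, the bits at the strings `true :: w` are polynomials of degree at most `|w|` in them.
-/

set_option autoImplicit false

namespace Pool.Agent.PFQ

open MvPolynomial

variable {p : ℕ}

/-- the polynomial of the free part that gives the bit at a string -/
noncomputable def lam (p : ℕ) (Λ : List Bool → List (List (List Bool))) : List Bool → Pol p
  | [] => 0
  | false :: w => X w
  | true :: w => (((Λ w).map fun M =>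
      (M.map fun u => if _h : u.length ≤ w.length then lam p Λ u else 0).prod).sum) ^ (p - 1)
termination_by x => x.length
decreasing_by
  simp only [List.length_cons]
  omega

lemma lam_nil (Λ : List Bool → List (List (List Bool))) : lam p Λ [] = 0 := by
  rw [lam]

lemma lam_false (Λ : List Bool → List (List (List Bool))) (w : List Bool) :
    lam p Λ (false :: w) = X w := by
  rw [lam]

lemma length_le [Fact p.Prime] {Λ : List Bool → List (List (List Bool))}
    (hΛ : ∀ w, ∀ M ∈ Λ w, (p - 1) * (M.map List.length).sum ≤ w.length) {w : List Bool}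
    {M : List (List Bool)} (hM : M ∈ Λ w) {u : List Bool} (hu : u ∈ M) :
    u.length ≤ w.length := by
  have hp1 : 1 ≤ p - 1 := Nat.sub_pos_of_lt (Fact.out : p.Prime).one_lt
  have h1 : u.length ≤ (M.map List.length).sum :=
    List.single_le_sum (l := M.map List.length) (fun _ _ => Nat.zero_le _) _
      (List.mem_map_of_mem hu)
  have h2 := hΛ w M hM
  have h3 : 1 * (M.map List.length).sum ≤ (p - 1) * (M.map List.length).sum :=
    Nat.mul_le_mul_right _ hp1
  omega

lemma lam_true [Fact p.Prime] {Λ : List Bool → List (List (List Bool))}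
    (hΛ : ∀ w, ∀ M ∈ Λ w, (p - 1) * (M.map List.length).sum ≤ w.length) (w : List Bool) :
    lam p Λ (true :: w) = (((Λ w).map fun M => (M.map fun u => lam p Λ u).prod).sum) ^ (p - 1) := by
  rw [lam]
  congr 2
  apply List.map_congr_left
  intro M hM
  congr 1
  apply List.map_congr_left
  intro u hu
  rw [dif_pos (length_le hΛ hM hu)]

lemma totalDegree_list_sum_le {σ : Type*} (L : List (MvPolynomial σ (ZMod p))) (d : ℕ)
    (h : ∀ f ∈ L, f.totalDegree ≤ d) : L.sum.totalDegree ≤ d := by
  induction L with
  | nil =>
    rw [List.sum_nil, totalDegree_zero]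
    exact Nat.zero_le _
  | cons f L ih =>
    rw [List.sum_cons]
    refine (totalDegree_add _ _).trans (max_le (h f List.mem_cons_self) ?_)
    exact ih fun q hq => h q (List.mem_cons_of_mem _ hq)

lemma totalDegree_lam [Fact p.Prime] {Λ : List Bool → List (List (List Bool))}
    (hΛ : ∀ w, ∀ M ∈ Λ w, (p - 1) * (M.map List.length).sum ≤ w.length) (x : List Bool) :
    (lam p Λ x).totalDegree ≤ x.length := by
  induction hn : x.length using Nat.strong_induction_on generalizing x with
  | _ n ih =>
    subst hn
    match x with
    | [] =>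
      rw [lam_nil, totalDegree_zero]
      exact Nat.zero_le _
    | false :: w =>
      rw [lam_false, totalDegree_X, List.length_cons]
      omega
    | true :: w =>
      rw [lam_true hΛ]
      refine (totalDegree_pow _ _).trans ?_
      have h0 : ∀ M ∈ Λ w, ((M.map fun u => lam p Λ u).prod).totalDegree ≤
          (M.map List.length).sum := by
        intro M hM
        have h2 : ∀ M' : List (List Bool), (∀ u ∈ M', u ∈ M) →
            ((M'.map fun u => lam p Λ u).prod).totalDegree ≤ (M'.map List.length).sum := by
          intro M' hM'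
          induction M' with
          | nil =>
            rw [List.map_nil, List.prod_nil, totalDegree_one]
            exact Nat.zero_le _
          | cons u M' ihM =>
            rw [List.map_cons, List.prod_cons, List.map_cons, List.sum_cons]
            refine (totalDegree_mul _ _).trans ?_
            have h3 := length_le hΛ hM (hM' u List.mem_cons_self)
            exact Nat.add_le_add (ih u.length (by rw [List.length_cons]; omega) u rfl)
              (ihM fun v hv => hM' v (List.mem_cons_of_mem _ hv))
        exact h2 M fun _ h => h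
      have hp1 : 1 ≤ p - 1 := Nat.sub_pos_of_lt (Fact.out : p.Prime).one_lt
      have h4 : (((Λ w).map fun M : List (List Bool) =>
          (M.map fun u => lam p Λ u).prod).sum).totalDegree ≤ w.length / (p - 1) := by
        apply totalDegree_list_sum_le
        intro f hf
        obtain ⟨M, hM, rfl⟩ := List.mem_map.1 hf
        refine (h0 M hM).trans ?_
        rw [Nat.le_div_iff_mul_le hp1, mul_comm]
        exact hΛ w M hM
      refine (Nat.mul_le_mul_left _ h4).trans ?_
      rw [List.length_cons]
      exact (Nat.mul_div_le _ _).trans (Nat.le_succ _)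

/-- the values of the polynomials are `0` and `1` -/
lemma val_lam [Fact p.Prime] {Λ : List Bool → List (List (List Bool))}
    (hΛ : ∀ w, ∀ M ∈ Λ w, (p - 1) * (M.map List.length).sum ≤ w.length) (A : Set (List Bool))
    (x : List Bool) : val A (lam p Λ x) = 0 ∨ val A (lam p Λ x) = 1 := by
  have hp1 : 0 < p - 1 := Nat.sub_pos_of_lt (Fact.out : p.Prime).one_lt
  match x with
  | [] =>
    left
    rw [lam_nil]
    unfold val
    rw [map_zero]
  | false :: w =>
    rw [lam_false]
    unfold val
    rw [eval_X]
    unfold ind
    by_cases h : w ∈ A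
    · right
      rw [if_pos h]
    · left
      rw [if_neg h]
  | true :: w =>
    rw [lam_true hΛ]
    unfold val
    rw [map_pow]
    by_cases h : eval (ind p A) (((Λ w).map fun M => (M.map fun u => lam p Λ u).prod).sum) = 0
    · left
      rw [h, zero_pow hp1.ne']
    · right
      exact ZMod.pow_card_sub_one_eq_one h

open Classical in
lemma val_prod_lam [Fact p.Prime] {Λ : List Bool → List (List (List Bool))}
    (hΛ : ∀ w, ∀ M ∈ Λ w, (p - 1) * (M.map List.length).sum ≤ w.length) (A : Set (List Bool))
    (M : List (List Bool)) :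
    val A ((M.map fun u => lam p Λ u).prod) =
      if ∀ u ∈ M, u ∈ Phi (lam p Λ) A then 1 else 0 := by
  induction M with
  | nil =>
    rw [List.map_nil, List.prod_nil, if_pos fun u hu => absurd hu List.not_mem_nil]
    unfold val
    rw [map_one]
  | cons u M ih =>
    rw [List.map_cons, List.prod_cons]
    have h1 : val A (lam p Λ u * (M.map fun u => lam p Λ u).prod) =
        val A (lam p Λ u) * val A ((M.map fun u => lam p Λ u).prod) := by
      unfold val
      rw [map_mul]
    rw [h1, ih]
    by_cases h2 : val A (lam p Λ u) = 1
    · rw [h2, one_mul]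
      by_cases h3 : ∀ v ∈ M, v ∈ Phi (lam p Λ) A
      · rw [if_pos h3, if_pos]
        intro v hv
        rcases List.mem_cons.1 hv with rfl | hv
        · exact h2
        · exact h3 v hv
      · rw [if_neg h3, if_neg]
        intro h4
        exact h3 fun v hv => h4 v (List.mem_cons_of_mem _ hv)
    · rw [(val_lam hΛ A u).resolve_right h2, zero_mul, if_neg]
      intro h4
      exact h2 (h4 u List.mem_cons_self)

open Classical in
lemma val_list_sum [Fact p.Prime] {Λ : List Bool → List (List (List Bool))}
    (hΛ : ∀ w, ∀ M ∈ Λ w, (p - 1) * (M.map List.length).sum ≤ w.length) (A : Set (List Bool))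
    (F : List (List (List Bool))) :
    val A ((F.map fun M => (M.map fun u => lam p Λ u).prod).sum) =
      (((F.filter fun M => ∀ u ∈ M, u ∈ Phi (lam p Λ) A).length : ℕ) : ZMod p) := by
  rw [← List.countP_eq_length_filter]
  induction F with
  | nil =>
    rw [List.map_nil, List.sum_nil, List.countP_nil, Nat.cast_zero]
    unfold val
    rw [map_zero]
  | cons M F ih =>
    rw [List.map_cons, List.sum_cons, List.countP_cons]
    have h1 : val A ((M.map fun u => lam p Λ u).prod +
        (F.map fun M => (M.map fun u => lam p Λ u).prod).sum) =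
        val A ((M.map fun u => lam p Λ u).prod) +
          val A ((F.map fun M => (M.map fun u => lam p Λ u).prod).sum) := by
      unfold val
      rw [map_add]
    rw [h1, ih, val_prod_lam hΛ]
    by_cases h2 : ∀ u ∈ M, u ∈ Phi (lam p Λ) A
    · rw [if_pos h2, if_pos (by simpa using h2)]
      push_cast
      ring
    · rw [if_neg h2, if_neg (by simpa using h2)]
      push_cast
      ring

/-- **The closure.** -/
theorem exists_lam (p : ℕ) [Fact p.Prime] (Λ : List Bool → List (List (List Bool)))
    (hΛ : ∀ w, ∀ M ∈ Λ w, (p - 1) * (M.map List.length).sum ≤ w.length) :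
    ∃ lam : List Bool → Pol p, (∀ w, (lam w).totalDegree ≤ w.length) ∧
      (∀ w, lam (false :: w) = MvPolynomial.X w) ∧
      ∀ (A₀ : Set (List Bool)) (w : List Bool),
        true :: w ∈ Phi lam A₀ ↔ Par p (Phi lam A₀) (Λ w) := by
  classical
  have hp1 : 0 < p - 1 := Nat.sub_pos_of_lt (Fact.out : p.Prime).one_lt
  refine ⟨lam p Λ, totalDegree_lam hΛ, lam_false Λ, ?_⟩
  intro A w
  have h1 : (true :: w ∈ Phi (lam p Λ) A) = (val A (lam p Λ (true :: w)) = 1) := rfl
  have h2 : val A (lam p Λ (true :: w)) =
      (((Λ w).filter fun M => ∀ u ∈ M, u ∈ Phi (lam p Λ) A).length : ZMod p) ^ (p - 1) := by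
    rw [← val_list_sum hΛ, lam_true hΛ]
    unfold val
    rw [map_pow]
  have h3 : Par p (Phi (lam p Λ) A) (Λ w) ↔
      ((((Λ w).filter fun M => ∀ u ∈ M, u ∈ Phi (lam p Λ) A).length : ℕ) : ZMod p) ≠ 0 := by
    unfold Par
    rw [Ne, ZMod.natCast_eq_zero_iff]
  rw [h1, h2, h3]
  constructor
  · intro h4 h5
    rw [h5, zero_pow hp1.ne'] at h4
    exact zero_ne_one h4
  · intro h4
    exact ZMod.pow_card_sub_one_eq_one h4

end Pool.Agent.PFQ
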