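import Pool.Agent.PFP.Defs

/-!
The classes `Mod_pP`, and families of sets of strings counted modulo a prime number `p`.
-/

set_option autoImplicit false

namespace Pool.Agent.PFQ

open Computability Lib.helper60
open MP_92db0f_lc_alg (PolyTime)

/-- The class `Mod_pP` relative to the oracle `O`: membership of `x` means that the number of the
certificates of `x` is not divisible by `p`; certificates have polynomial length and are checked in
polynomial time with the oracle `O`. -/
def InModP (p : ℕ) (O L : Set (List Bool)) : Prop :=
  ∃ (P : Polynomial ℕ) (R : List Bool × List Bool → Prop), PolyTime encPair O R ∧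
    ∀ x, x ∈ L ↔ ¬ p ∣ {y : List Bool | y.length ≤ P.eval x.length ∧ R (x, y)}.ncard

open Classical in
/-- The number of the lists `M` in `F` all of whose elements belong to `A` is not divisible by
`p`. -/
def Par (p : ℕ) (A : Set (List Bool)) (F : List (List (List Bool))) : Prop :=
  ¬ p ∣ (F.filter fun M => ∀ u ∈ M, u ∈ A).length

end Pool.Agent.PFQ
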