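import Pool.Agent.PFQ.Defs
import Pool.Agent.MP_92db0f_lc_mul.Machines

/-!
The multilinear extension over rings of characteristic `p` answers questions about numbers modulo
`p`, provided that every bit of the codes of the elements depends on one additive map to the field
with `p` elements.
-/

set_option autoImplicit false

namespace Pool.Agent.PFQ

open Turing Computability Lib.helper60
open MP_92db0f_lc (length_encPair PT_encPair)
open MP_92db0f_lc_alg (answers PolyTime InP encList)
open MP_92db0f_lc_mul (mext mquery mextOracle mquery_inj Pt)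

/-! ### counting lists -/

section

variable {p : ℕ} (A : Set (List Bool))

open Classical in
/-- the number of the lists in `F` all of whose elements belong to `A` -/
noncomputable def extCnt (F : List (List (List Bool))) : ℕ :=
  (F.filter fun M => ∀ u ∈ M, u ∈ A).length

lemma par_iff_extCnt (F : List (List (List Bool))) : Par p A F ↔ (extCnt A F : ZMod p) ≠ 0 := by
  unfold Par extCnt
  rw [ne_eq, ZMod.natCast_eq_zero_iff]

lemma extCnt_nil : extCnt A [] = 0 := rfl

lemma extCnt_append (F G : List (List (List Bool))) : extCnt A (F ++ G) = extCnt A F + extCnt A G := by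
  unfold extCnt
  rw [List.filter_append, List.length_append]

open Classical in
lemma extCnt_replicate (k : ℕ) (M : List (List Bool)) :
    extCnt A (List.replicate k M) = if ∀ u ∈ M, u ∈ A then k else 0 := by
  unfold extCnt
  rw [List.filter_replicate]
  by_cases h : ∀ u ∈ M, u ∈ A
  · rw [if_pos h, if_pos (by simpa using h), List.length_replicate]
  · rw [if_neg h, if_neg (by simpa using h), List.length_nil]

lemma extCnt_flatMap {α : Type} (l : List α) (f : α → List (List (List Bool))) :
    extCnt A (l.flatMap f) = (l.map fun x => extCnt A (f x)).sum := by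
  induction l with
  | nil => rfl
  | cons x l ih => rw [List.flatMap_cons, extCnt_append, ih, List.map_cons, List.sum_cons]

end

/-! ### codes of queries -/

section

variable {E : ℕ → Type} {len : ℕ → ℕ}

open Classical in
/-- the query with the code `w` -/
noncomputable def extDec (cod : (i : ℕ) → E i → Fin (len i) → Bool) (w : List Bool) :
    Option ((i : ℕ) × (n : ℕ) × (Fin n → E i) × Fin (len i)) :=
  if h : ∃ t : (i : ℕ) × (n : ℕ) × (Fin n → E i) × Fin (len i),
    w = mquery cod t.1 (List.ofFn t.2.2.1) t.2.2.2 then some h.choose else none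

lemma extDec_mquery (cod : (i : ℕ) → E i → Fin (len i) → Bool)
    (hcod : ∀ i, Function.Injective (cod i)) (i n : ℕ) (y : Fin n → E i) (b : Fin (len i)) :
    extDec cod (mquery cod i (List.ofFn y) b) = some ⟨i, n, y, b⟩ := by
  have h : ∃ t : (i : ℕ) × (n : ℕ) × (Fin n → E i) × Fin (len i),
      mquery cod i (List.ofFn y) b = mquery cod t.1 (List.ofFn t.2.2.1) t.2.2.2 :=
    ⟨⟨i, n, y, b⟩, rfl⟩
  unfold extDec
  rw [dif_pos h]
  congr 1
  obtain ⟨t, ht⟩ : ∃ t, t = h.choose := ⟨_, rfl⟩
  have h1 := h.choose_spec
  rw [← ht] at h1 ⊢
  obtain ⟨i', n', y', b'⟩ := t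
  obtain ⟨h2, h3⟩ := mquery_inj hcod h1
  cases h2
  rw [Fin.ext h3]

lemma extDec_spec (cod : (i : ℕ) → E i → Fin (len i) → Bool) (w : List Bool)
    (t : (i : ℕ) × (n : ℕ) × (Fin n → E i) × Fin (len i)) (h : extDec cod w = some t) :
    w = mquery cod t.1 (List.ofFn t.2.2.1) t.2.2.2 := by
  unfold extDec at h
  split_ifs at h with h1
  rw [Option.some_inj] at h
  rw [← h]
  exact h1.choose_spec

lemma ext_length_le (l : List (List Bool)) : l.length ≤ (encList l).length := by
  induction l with
  | nil => exact Nat.zero_le _
  | cons w l ih =>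
    rw [encList, length_encPair, List.length_cons]
    omega

lemma extDec_len (cod : (i : ℕ) → E i → Fin (len i) → Bool) (w : List Bool)
    (t : (i : ℕ) × (n : ℕ) × (Fin n → E i) × Fin (len i)) (h : extDec cod w = some t) :
    t.2.1 ≤ w.length := by
  rw [extDec_spec cod w t h]
  have h3 := ext_length_le ((List.ofFn t.2.2.1).map fun s => List.ofFn (cod t.1 s))
  rw [List.length_map, List.length_ofFn] at h3
  unfold mquery
  rw [length_encPair, length_encPair]
  omega

end

/-! ### the rule -/

/-- the code of the pair of `w` and the number `a` -/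
def extEnc1 (p : ℕ) (w : List Bool) (a : ℕ) : List Bool :=
  encPair (w, List.replicate (p * w.length + a) true)

/-- the code of `w`, padded -/
def extEnc2 (p : ℕ) (w : List Bool) : List Bool :=
  encPair (w, List.replicate (p * (5 + (2 + p) * w.length + p)) true)

section

variable {p : ℕ} {E : ℕ → Type} [∀ i, CommRing (E i)] {len : ℕ → ℕ}
  (cod : (i : ℕ) → E i → Fin (len i) → Bool) (φ : (i : ℕ) → Fin (len i) → E i →+ ZMod p)
  (g : (i : ℕ) → Fin (len i) → ZMod p → Bool)

/-- the lists that ask whether the value of `φ` is different from `a` -/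
noncomputable def ext1 (w : List Bool) (a : ℕ) : List (List (List Bool)) :=
  match extDec cod w with
  | none => []
  | some ⟨i, n, y, b⟩ =>
    ((Finset.univ : Finset (Fin n → Bool)).toList.flatMap fun x =>
      List.replicate (φ i b (∏ j, (if x j then y j else 1 - y j))).val [List.ofFn x]) ++
      List.replicate (p - a) []

/-- the lists that ask for the bit -/
noncomputable def ext2 (w : List Bool) : List (List (List Bool)) :=
  match extDec cod w with
  | none => []
  | some ⟨i, _, _, b⟩ => (List.range p).flatMap fun a : ℕ =>
    bif g i b (a : ZMod p) then List.replicate 1 [] ++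
      List.replicate (p - 1) [true :: true :: false :: extEnc1 p w a] else []

/-- the rule of the multilinear extension, without the bound for the lengths -/
noncomputable def extPre : List Bool → List (List (List Bool))
  | [] => []
  | false :: v => ext1 cod φ (unpair v).1 ((unpair v).2.length - p * (unpair v).1.length)
  | true :: v => ext2 cod g (unpair v).1

open Classical in
/-- the rule of the multilinear extension -/
noncomputable def extRule (v : List Bool) : List (List (List Bool)) :=
  if ∀ M ∈ extPre cod φ g v, (p - 1) * (M.map List.length).sum ≤ v.length then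
    extPre cod φ g v else []

theorem extRule_len (v : List Bool) :
    ∀ M ∈ extRule cod φ g v, (p - 1) * (M.map List.length).sum ≤ v.length := by
  intro M hM
  unfold extRule at hM
  split_ifs at hM with h
  · exact h M hM
  · exact absurd hM List.not_mem_nil

lemma extRule_1 (w : List Bool) (a : ℕ) :
    extRule cod φ g (false :: extEnc1 p w a) = ext1 cod φ w a := by
  have h1 : extPre cod φ g (false :: extEnc1 p w a) = ext1 cod φ w a := by
    unfold extPre extEnc1
    simp only [unpair_enc, List.length_replicate, Nat.add_sub_cancel_left]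
  unfold extRule
  rw [h1, if_pos]
  intro M hM
  rw [List.length_cons, extEnc1, length_encPair, List.length_replicate]
  unfold ext1 at hM
  split at hM
  · exact absurd hM List.not_mem_nil
  · rename_i i n y b hd
    have h2 : n ≤ w.length := extDec_len cod w _ hd
    rw [List.mem_append] at hM
    rcases hM with hM | hM
    · rw [List.mem_flatMap] at hM
      obtain ⟨x, -, hM⟩ := hM
      rw [(List.mem_replicate.1 hM).2, List.map_cons, List.map_nil, List.sum_cons, List.sum_nil,
        List.length_ofFn, Nat.add_zero]
      have h3 : (p - 1) * n ≤ p * w.length := Nat.mul_le_mul (Nat.sub_le _ _) h2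
      omega
    · rw [(List.mem_replicate.1 hM).2, List.map_nil, List.sum_nil, Nat.mul_zero]
      exact Nat.zero_le _

lemma extRule_2 (w : List Bool) :
    extRule cod φ g (true :: extEnc2 p w) = ext2 cod g w := by
  have h1 : extPre cod φ g (true :: extEnc2 p w) = ext2 cod g w := by
    unfold extPre extEnc2
    simp only [unpair_enc]
  unfold extRule
  rw [h1, if_pos]
  intro M hM
  rw [List.length_cons, extEnc2, length_encPair, List.length_replicate]
  unfold ext2 at hM
  split at hM
  · exact absurd hM List.not_mem_nil
  · rename_i i n y b hd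
    rw [List.mem_flatMap] at hM
    obtain ⟨a, ha, hM⟩ := hM
    rw [List.mem_range] at ha
    cases hg : g i b a with
    | false =>
      rw [hg, cond_false] at hM
      exact absurd hM List.not_mem_nil
    | true =>
      rw [hg, cond_true, List.mem_append] at hM
      rcases hM with hM | hM
      · rw [(List.mem_replicate.1 hM).2, List.map_nil, List.sum_nil, Nat.mul_zero]
        exact Nat.zero_le _
      · rw [(List.mem_replicate.1 hM).2, List.map_cons, List.map_nil, List.sum_cons, List.sum_nil,
          Nat.add_zero]
        have h2 : (true :: true :: false :: extEnc1 p w a).length ≤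
            5 + (2 + p) * w.length + p := by
          rw [extEnc1, List.length_cons, List.length_cons, List.length_cons, length_encPair,
            List.length_replicate, add_mul]
          omega
        have h3 := Nat.mul_le_mul (Nat.sub_le p 1) h2
        omega

variable {cod φ g}

lemma ext1_extCnt [Fact p.Prime] (A : Set (List Bool)) {i n : ℕ} (y : Fin n → E i)
    (b : Fin (len i)) (a : ℕ) (ha : a ≤ p) (w : List Bool) (hw : extDec cod w = some ⟨i, n, y, b⟩) :
    (extCnt A (ext1 cod φ w a) : ZMod p) = φ i b (mext A y) - a := by
  classical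
  have : NeZero p := ⟨(Fact.out : p.Prime).ne_zero⟩
  unfold ext1
  rw [hw]
  dsimp only
  rw [extCnt_append, extCnt_flatMap, extCnt_replicate, if_pos (fun u hu => absurd hu List.not_mem_nil),
    Nat.cast_add, Nat.cast_sub ha, ZMod.natCast_self, Finset.sum_map_toList, Nat.cast_sum]
  unfold mext
  rw [map_sum, zero_sub, ← sub_eq_add_neg]
  congr 1
  apply Finset.sum_congr rfl
  intro x _
  rw [extCnt_replicate]
  by_cases h : List.ofFn x ∈ A
  · rw [if_pos h, if_pos (by simpa using h), ZMod.natCast_val, ZMod.cast_id]
  · rw [if_neg h, if_neg (by simpa using h), map_zero, Nat.cast_zero]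

lemma ext2_extCnt [Fact p.Prime] (A : Set (List Bool))
    (hA : ∀ v, true :: true :: v ∈ A ↔ Par p A (extRule cod φ g v)) {i n : ℕ} (y : Fin n → E i)
    (b : Fin (len i)) (w : List Bool) (hw : extDec cod w = some ⟨i, n, y, b⟩) :
    (extCnt A (ext2 cod g w) : ZMod p) = if g i b (φ i b (mext A y)) = true then 1 else 0 := by
  classical
  have : NeZero p := ⟨(Fact.out : p.Prime).ne_zero⟩
  obtain ⟨c, hc⟩ : ∃ c, c = φ i b (mext A y) := ⟨_, rfl⟩
  have h1 : ∀ a < p, (true :: true :: false :: extEnc1 p w a ∈ A ↔ c ≠ a) := by
    intro a ha
    rw [hA, extRule_1, par_iff_extCnt, ext1_extCnt A y b a ha.le w hw, ← hc, ne_eq, sub_eq_zero]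
  have h2 : ∀ a ∈ Finset.range p, ((extCnt A (bif g i b a then List.replicate 1 [] ++
      List.replicate (p - 1) [true :: true :: false :: extEnc1 p w a] else []) : ℕ) : ZMod p) =
      if c = a then (if g i b c = true then 1 else 0) else 0 := by
    intro a ha
    rw [Finset.mem_range] at ha
    cases hg : g i b a with
    | false =>
      rw [cond_false, extCnt_nil, Nat.cast_zero]
      by_cases h3 : c = a
      · rw [if_pos h3, h3, hg, if_neg Bool.false_ne_true]
      · rw [if_neg h3]
    | true =>
      rw [cond_true, extCnt_append, extCnt_replicate, extCnt_replicate,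
        if_pos (fun u hu => absurd hu List.not_mem_nil)]
      by_cases h3 : c = a
      · rw [if_pos h3, if_neg (fun h4 => (h1 a ha).1 (h4 _ List.mem_cons_self) h3), h3, hg,
          if_pos rfl, Nat.add_zero, Nat.cast_one]
      · rw [if_neg h3, if_pos (by simpa using (h1 a ha).2 h3)]
        have h4 : 1 + (p - 1) = p := by
          have := (Fact.out : p.Prime).one_le
          omega
        rw [h4, ZMod.natCast_self]
  unfold ext2
  rw [hw]
  dsimp only
  rw [extCnt_flatMap, ← hc]
  have h3 : ((List.range p).map fun a : ℕ => extCnt A (bif g i b (a : ZMod p) then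
      List.replicate 1 [] ++ List.replicate (p - 1) [true :: true :: false :: extEnc1 p w a]
      else [])).sum = ∑ a ∈ Finset.range p, extCnt A (bif g i b (a : ZMod p) then
      List.replicate 1 [] ++ List.replicate (p - 1) [true :: true :: false :: extEnc1 p w a]
      else []) := by
    rw [← List.sum_toFinset _ List.nodup_range, List.toFinset_range]
  rw [h3, Nat.cast_sum, Finset.sum_congr rfl h2,
    Finset.sum_eq_single_of_mem c.val (Finset.mem_range.2 (ZMod.val_lt c)), if_pos]
  · rw [ZMod.natCast_val, ZMod.cast_id]
  · intro a ha hne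
    rw [Finset.mem_range] at ha
    rw [if_neg]
    rintro rfl
    exact hne (ZMod.val_cast_of_lt ha).symm

end

/-- prefixing a query by a string that is computed in polynomial time -/
theorem inP_of_ext (A : Set (List Bool)) {f : List Bool → List Bool} (hf : PT f) :
    InP A {w | f w ∈ A} := by
  refine ⟨fun z => f z.1, fun z => z.2.headD false, 1, ?_, ?_, ?_⟩
  · refine PT.toTM2 (F := fun w => f (unpair w).1) ?_ ?_
    · exact hf.comp PT_unpair.p1
    · intro a
      simp only [unpair_enc]
  · refine PT.decider (F := fun w => (unpair w).2.headD false) ?_ ?_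
    · exact PT.headD PT_unpair.p2 (PT.const false)
    · intro a
      simp only [unpair_enc]
  · intro x
    simp [answers]

/-- **The multilinear extension over rings of characteristic `p`.** -/
theorem exists_extRule (p : ℕ) [Fact p.Prime] {E : ℕ → Type} [∀ i, CommRing (E i)] {len : ℕ → ℕ}
    (cod : (i : ℕ) → E i → Fin (len i) → Bool) (hcod : ∀ i, Function.Injective (cod i))
    (hφ : ∀ i j, ∃ (φ : E i →+ ZMod p) (g : ZMod p → Bool), ∀ x, cod i x j = g (φ x)) :
    ∃ Λ : List Bool → List (List (List Bool)),
      (∀ v, ∀ M ∈ Λ v, (p - 1) * (M.map List.length).sum ≤ v.length) ∧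
      ∀ A : Set (List Bool), (∀ v, true :: true :: v ∈ A ↔ Par p A (Λ v)) →
        InP A (mextOracle cod A) := by
  classical
  choose φ g hg using hφ
  refine ⟨extRule cod φ g, extRule_len cod φ g, fun A hA => ?_⟩
  have key : mextOracle cod A = {w | true :: true :: true :: extEnc2 p w ∈ A} := by
    ext w
    change w ∈ mextOracle cod A ↔ true :: true :: true :: extEnc2 p w ∈ A
    rw [hA, extRule_2, par_iff_extCnt]
    constructor
    · rintro ⟨i, n, y, b, rfl, h⟩
      rw [ext2_extCnt A hA y b _ (extDec_mquery cod hcod i n y b), ← hg, if_pos h]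
      have : Fact (1 < p) := ⟨(Fact.out : p.Prime).one_lt⟩
      exact one_ne_zero
    · intro h
      cases hd : extDec cod w with
      | none =>
        exfalso
        unfold ext2 at h
        rw [hd] at h
        exact h (by rw [extCnt_nil, Nat.cast_zero])
      | some t =>
        obtain ⟨i, n, y, b⟩ := t
        rw [ext2_extCnt A hA y b w hd, ← hg] at h
        refine ⟨i, n, y, b, extDec_spec cod w _ hd, ?_⟩
        by_contra h1
        rw [if_neg h1] at h
        exact h rfl
  rw [key]
  apply inP_of_ext A (f := fun w => true :: true :: true :: extEnc2 p w)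
  refine PT.cons (PT.const true) (PT.cons (PT.const true) (PT.cons (PT.const true) ?_))
  unfold extEnc2
  exact PT_encPair PT.id (PT.replicate (PT.nmul (PT.const p) (PT.nadd (PT.nadd (PT.const 5)
    (PT.nmul (PT.const (2 + p)) (PT.length PT.id))) (PT.const p))) (PT.const true))

end Pool.Agent.PFQ
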