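import Pool.Agent.MP_92db0f_lc_thr.Legal
import Pool.Agent.PFQ.Conf

/-!
Legal configurations and the injury step, for probes that are polynomials over the field with `p`
elements.
-/

set_option autoImplicit false
set_option linter.unusedSectionVars false

namespace Pool.Agent.PFQ

open MP_92db0f_lc_alg (nn exists_nn nn_inj nn_pos)
open MP_92db0f_lc_thr (cls cls_eq Dg mem_cls hs hs_congr hs_inj length_hs)

variable {p : ℕ} [Fact p.Prime] {Y : Sys p}

lemma Sys.τ_le (Y : Sys p) (m : ℕ) : Y.τ m ≤ cls m := by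
  by_contra h
  have h1 := (Y.τ_iff (cls m) m).1 (by omega)
  have h2 := Y.le_pc m
  omega

/-- the number of the actions of the class `t` -/
def Hc (Y : Sys p) (c : Y.Req → ℕ) (t : ℕ) : ℕ :=
  ∑ m ∈ Finset.Ico (2 ^ t - 1) (2 ^ (t + 1) - 1), ∑ r ∈ Y.Rq m, c r

/-- the number of the actions of the classes below `n` -/
def Sc (Y : Sys p) (c : Y.Req → ℕ) (n : ℕ) : ℕ := ∑ t ∈ Finset.range n, Hc Y c t

open Classical in
lemma Hc_update (c : Y.Req → ℕ) (r : Y.Req) (t : ℕ) : Hc Y (Function.update c r (c r + 1)) t =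
    Hc Y c t + if t = cls (Y.lv r) then 1 else 0 := by
  have key : ∀ m, ∑ r' ∈ Y.Rq m, Function.update c r (c r + 1) r' =
      ∑ r' ∈ Y.Rq m, c r' + if m = Y.lv r then 1 else 0 := by
    intro m
    by_cases h : m = Y.lv r
    · have hr : r ∈ Y.Rq m := (Y.mem_Rq m r).2 h.symm
      rw [if_pos h, ← Finset.add_sum_erase _ _ hr, ← Finset.add_sum_erase (Y.Rq m) c hr,
        Function.update_self]
      have h1 : ∑ r' ∈ (Y.Rq m).erase r, Function.update c r (c r + 1) r' =
          ∑ r' ∈ (Y.Rq m).erase r, c r' := by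
        apply Finset.sum_congr rfl
        intro r' hr'
        rw [Function.update_of_ne (Finset.ne_of_mem_erase hr')]
      rw [h1]
      ring
    · rw [if_neg h, Nat.add_zero]
      apply Finset.sum_congr rfl
      intro r' hr'
      rw [Function.update_of_ne]
      rintro rfl
      exact h ((Y.mem_Rq m r').1 hr').symm
  unfold Hc
  rw [Finset.sum_congr rfl fun m _ => key m, Finset.sum_add_distrib, Finset.sum_ite_eq']
  congr 1
  by_cases h : t = cls (Y.lv r)
  · rw [if_pos h, if_pos (mem_cls.2 h.symm)]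
  · rw [if_neg h, if_neg fun h' => h (mem_cls.1 h').symm]

open Classical in
lemma Sc_update (c : Y.Req → ℕ) (r : Y.Req) (n : ℕ) : Sc Y (Function.update c r (c r + 1)) n =
    Sc Y c n + if cls (Y.lv r) < n then 1 else 0 := by
  unfold Sc
  rw [Finset.sum_congr rfl fun t _ => Hc_update c r t, Finset.sum_add_distrib,
    Finset.sum_ite_eq']
  simp only [Finset.mem_range]

lemma Sc_mono (c : Y.Req → ℕ) {n n' : ℕ} (h : n ≤ n') : Sc Y c n ≤ Sc Y c n' :=
  Finset.sum_le_sum_of_subset (Finset.range_subset_range.2 h)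

/-- A legal configuration: `c r` is the number of the actions of `r`; the requirements that are on
are accepted for good as long as the values at the points of `Sf r` do not change. -/
structure LC (Y : Sys p) where
  κ : Conf Y.cl
  c : Y.Req → ℕ
  on : Y.Req → Prop
  Sf : Y.Req → Finset (Pol p)
  cert : ∀ r, on r → wt (Sf r) ≤ 2 ^ Y.lv r ∧ ∀ B, Agree κ.A B (Sf r) → Y.acc B r
  low : ∀ r, c r ≤ Sc Y c (Y.τ (Y.lv r)) + 1 ∧ (¬ on r → c r ≤ Sc Y c (Y.τ (Y.lv r)))
  markH : ∀ t u, u.length < Dg t → (Y.cdH t u ∈ κ.G ↔ nn (Dg t) u ≤ Hc Y c t)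
  markV : ∀ r, Y.cdV r (hs Dg (Hc Y c) (Y.τ (Y.lv r))) ∈ κ.G ↔ on r
  old : ∀ r v, Y.cdV r v ∈ κ.G → ∃ h : ℕ → ℕ, v = hs Dg h (Y.τ (Y.lv r)) ∧ ∀ t, h t ≤ Hc Y c t

lemma LC.Sc_lt (a : LC Y) (n : ℕ) : 1 + Sc Y a.c n ≤ 2 ^ (5 * (2 ^ n - 1)) := by
  induction n with
  | zero => simp [Sc]
  | succ n ih =>
    have h1 : Sc Y a.c (n + 1) = Sc Y a.c n + Hc Y a.c n := by
      unfold Sc
      rw [Finset.sum_range_succ]
    have h2 : Hc Y a.c n ≤ 2 ^ (4 * 2 ^ n) * (1 + Sc Y a.c n) := by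
      unfold Hc
      have h3 : ∀ m ∈ Finset.Ico (2 ^ n - 1) (2 ^ (n + 1) - 1), ∑ r ∈ Y.Rq m, a.c r ≤
          4 ^ (m + 1) * (1 + Sc Y a.c n) := by
        intro m hm
        rw [mem_cls] at hm
        have h4 : ∀ r ∈ Y.Rq m, a.c r ≤ 1 + Sc Y a.c n := by
          intro r hr
          have h5 := (a.low r).1
          have h6 := Y.τ_le (Y.lv r)
          rw [(Y.mem_Rq m r).1 hr, hm] at h6
          have h7 := Sc_mono a.c h6
          rw [(Y.mem_Rq m r).1 hr] at h5
          omega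
        refine (Finset.sum_le_card_nsmul _ _ _ h4).trans ?_
        rw [smul_eq_mul]
        apply Nat.mul_le_mul_right
        refine (Y.card_Rq m).trans (le_of_eq ?_)
        rw [show 2 * m + 2 = 2 * (m + 1) by ring, pow_mul]
        norm_num
      refine (Finset.sum_le_sum h3).trans ?_
      rw [← Finset.sum_mul]
      apply Nat.mul_le_mul_right
      have h5 : ∀ N, ∑ m ∈ Finset.range N, 4 ^ (m + 1) ≤ 2 * 4 ^ N := by
        intro N
        induction N with
        | zero => simp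
        | succ N ih =>
          rw [Finset.sum_range_succ, pow_succ]
          omega
      have h6 : ∑ m ∈ Finset.Ico (2 ^ n - 1) (2 ^ (n + 1) - 1), 4 ^ (m + 1) ≤
          ∑ m ∈ Finset.range (2 ^ (n + 1) - 1), 4 ^ (m + 1) := by
        apply Finset.sum_le_sum_of_subset
        intro m hm
        rw [Finset.mem_Ico] at hm
        rw [Finset.mem_range]
        exact hm.2
      refine h6.trans ((h5 _).trans ?_)
      have h7 : 2 ^ (4 * 2 ^ n) = 4 * 4 ^ (2 ^ (n + 1) - 1) := by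
        rw [← pow_succ', Nat.sub_add_cancel Nat.one_le_two_pow,
          show 4 * 2 ^ n = 2 * 2 ^ (n + 1) by ring, pow_mul]
        norm_num
      omega
    have h8 : 1 ≤ 2 ^ n := Nat.one_le_two_pow
    have h9 : 5 * (2 ^ (n + 1) - 1) = 5 * (2 ^ n - 1) + 5 * 2 ^ n := by
      rw [pow_succ]
      omega
    rw [h9, pow_add, h1]
    have h10 : 1 + 2 ^ (4 * 2 ^ n) ≤ 2 ^ (5 * 2 ^ n) := by
      have h11 : 2 ^ (4 * 2 ^ n + 1) ≤ 2 ^ (5 * 2 ^ n) :=
        Nat.pow_le_pow_right (by norm_num) (by omega)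
      rw [pow_succ] at h11
      have h12 : 1 ≤ 2 ^ (4 * 2 ^ n) := Nat.one_le_two_pow
      omega
    calc 1 + (Sc Y a.c n + Hc Y a.c n) ≤ (1 + Sc Y a.c n) * (1 + 2 ^ (4 * 2 ^ n)) := by
          nlinarith
      _ ≤ _ := Nat.mul_le_mul ih h10

lemma LC.Hc_lt (a : LC Y) (t : ℕ) : Hc Y a.c t + 1 < 2 ^ Dg t := by
  have h1 := a.Sc_lt (t + 1)
  have h2 : Sc Y a.c (t + 1) = Sc Y a.c t + Hc Y a.c t := by
    unfold Sc
    rw [Finset.sum_range_succ]
  have h3 : 2 ^ (5 * (2 ^ (t + 1) - 1)) < 2 ^ Dg t := by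
    apply Nat.pow_lt_pow_right (by norm_num)
    unfold Dg
    rw [pow_succ]
    have : 1 ≤ 2 ^ t := Nat.one_le_two_pow
    omega
  omega

/-- a step at the class `t` -/
structure StepAt (t : ℕ) (a b : LC Y) : Prop where
  inc : Hc Y a.c t < Hc Y b.c t
  mono : ∀ r, a.c r ≤ b.c r
  keep : ∀ r, cls (Y.lv r) < t → b.c r = a.c r ∧ (b.on r ↔ a.on r) ∧
    (a.on r → b.Sf r = a.Sf r ∧ Agree a.κ.A b.κ.A (a.Sf r))
  out : ∀ x : List Bool, x.length < 5 * t + 10 → (x ∈ b.κ.A ↔ x ∈ a.κ.A)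

lemma Sys.le_pc' (Y : Sys p) (t : ℕ) : t ≤ Y.pc t := by
  have h1 : cls (2 ^ t - 1) = t := by
    rw [cls_eq]
    have h2 : 1 ≤ 2 ^ t := Nat.one_le_two_pow
    rw [pow_succ]
    omega
  have h2 := Y.le_pc (2 ^ t - 1)
  rw [h1] at h2
  have h3 : t < 2 ^ t := Nat.lt_two_pow_self
  omega

open Classical in
/-- A requirement that is accepted although it is off can act. -/
lemma LC.act (a : LC Y) (r₀ : Y.Req) (he : ¬ a.on r₀) (hacc : Y.acc a.κ.A r₀) :
    ∃ b : LC Y, StepAt (cls (Y.lv r₀)) a b := by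
  obtain ⟨t₀, ht₀⟩ : ∃ t, t = cls (Y.lv r₀) := ⟨_, rfl⟩
  rw [← ht₀]
  obtain ⟨M, hM⟩ : ∃ M, M = Y.pc t₀ := ⟨_, rfl⟩
  have hmM : Y.lv r₀ ≤ M := by rw [hM, ht₀]; exact Y.le_pc _
  obtain ⟨S₀, hS₀c, hS₀⟩ := Y.use _ _ hacc
  let S₁ : Finset (Pol p) := (Finset.range (M + 1)).biUnion fun j =>
    (Y.Rq j).biUnion fun r => if a.on r then a.Sf r else ∅
  have hS₁ : ∀ r, Y.lv r ≤ M → a.on r → a.Sf r ⊆ S₁ := by
    intro r hr ho f hf
    rw [Finset.mem_biUnion]
    refine ⟨Y.lv r, Finset.mem_range.2 (by omega), ?_⟩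
    rw [Finset.mem_biUnion]
    exact ⟨r, (Y.mem_Rq _ _).2 rfl, by rw [if_pos ho]; exact hf⟩
  have hc1 : wt S₁ ≤ (M + 1) * (2 ^ (2 * M + 2) * 2 ^ M) := by
    refine (wt_biUnion_le _ _).trans ?_
    have h1 : ∀ j ∈ Finset.range (M + 1),
        wt ((Y.Rq j).biUnion fun r => if a.on r then a.Sf r else ∅) ≤
          2 ^ (2 * M + 2) * 2 ^ M := by
      intro j hj
      rw [Finset.mem_range] at hj
      refine (wt_biUnion_le _ _).trans ?_
      have h2 : ∀ r ∈ Y.Rq j, wt (if a.on r then a.Sf r else ∅ : Finset (Pol p)) ≤ 2 ^ M := by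
        intro r hr
        split_ifs with ho
        · refine (a.cert r ho).1.trans (Nat.pow_le_pow_right (by norm_num) ?_)
          rw [(Y.mem_Rq j r).1 hr]
          omega
        · rw [wt_empty]
          exact Nat.zero_le _
      refine (Finset.sum_le_card_nsmul _ _ _ h2).trans ?_
      rw [smul_eq_mul]
      apply Nat.mul_le_mul_right
      exact (Y.card_Rq j).trans (Nat.pow_le_pow_right (by norm_num) (by omega))
    refine (Finset.sum_le_card_nsmul _ _ _ h1).trans ?_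
    rw [smul_eq_mul, Finset.card_range]
  let S := S₀ ∪ S₁
  have hS : wt S < 2 ^ (5 * M + 10) := by
    have h1 := wt_union_le S₀ S₁
    have h2 : M + 1 ≤ 2 ^ M := Nat.lt_two_pow_self
    have h3 : (M + 1) * (2 ^ (2 * M + 2) * 2 ^ M) ≤ 2 ^ M * (2 ^ (2 * M + 2) * 2 ^ M) :=
      Nat.mul_le_mul_right _ h2
    have h4 : 2 ^ M * (2 ^ (2 * M + 2) * 2 ^ M) = 2 ^ (4 * M + 2) := by
      rw [← pow_add, ← pow_add]
      congr 1
      ring
    have h5 : 2 ^ Y.lv r₀ ≤ 2 ^ (4 * M + 2) := Nat.pow_le_pow_right (by norm_num) (by omega)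
    have h6 : 2 ^ (4 * M + 2) * 2 < 2 ^ (5 * M + 10) := by
      rw [← pow_succ]
      exact Nat.pow_lt_pow_right (by norm_num) (by omega)
    change wt (S₀ ∪ S₁) < _
    omega
  have hτ₀ : Y.τ (Y.lv r₀) ≤ t₀ := by rw [ht₀]; exact Y.τ_le _
  -- the two new blocks
  obtain ⟨z₁, hz₁⟩ : ∃ z, z = Y.cdV r₀ (hs Dg (Hc Y a.c) (Y.τ (Y.lv r₀))) := ⟨_, rfl⟩
  obtain ⟨u₀, hu₀, hn₀⟩ := exists_nn (Nat.succ_pos (Hc Y a.c t₀)) (a.Hc_lt t₀)
  have hn₀' : nn (Dg t₀) u₀ = Hc Y a.c t₀ + 1 := hn₀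
  obtain ⟨z₂, hz₂⟩ : ∃ z, z = Y.cdH t₀ u₀ := ⟨_, rfl⟩
  have hz₁G : z₁ ∉ a.κ.G := by rw [hz₁, a.markV]; exact he
  have hz₂G : z₂ ∉ a.κ.G := by
    rw [hz₂, a.markH _ _ hu₀]
    omega
  have hz₁l : 5 * M + 10 ≤ Y.cl z₁ := by
    rw [hM, ht₀, hz₁]
    exact Y.cdV_cl _ _
  have hz₂l : 5 * M + 10 ≤ Y.cl z₂ := by
    rw [hM, hz₂]
    exact Y.cdH_cl _ _
  obtain ⟨κ₁, e1, e2, e3⟩ := a.κ.add hz₁G S
    (hS.trans_le (Nat.pow_le_pow_right (by norm_num) hz₁l))
  obtain ⟨κ₂, f1, f2, f3⟩ := κ₁.add (z := z₂) (by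
    rw [e1]
    rintro (h | h)
    · exact Y.cd_ne _ _ _ _ ((hz₂.symm.trans h).trans hz₁)
    · exact hz₂G h) S (hS.trans_le (Nat.pow_le_pow_right (by norm_num) hz₂l))
  have hG : ∀ z, z ∈ κ₂.G ↔ z = z₂ ∨ z = z₁ ∨ z ∈ a.κ.G := by
    intro z
    rw [f1, e1]
    rfl
  have hAg : Agree a.κ.A κ₂.A S := e2.trans f2
  obtain ⟨c', hc'⟩ : ∃ c', c' = Function.update a.c r₀ (a.c r₀ + 1) := ⟨_, rfl⟩
  have hH : ∀ t, Hc Y c' t = Hc Y a.c t + if t = t₀ then 1 else 0 := fun t => by
    rw [hc', Hc_update, ht₀]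
  have hSc : ∀ n, Sc Y c' n = Sc Y a.c n + if t₀ < n then 1 else 0 := fun n => by
    rw [hc', Sc_update, ht₀]
  have hcr : ∀ r, r ≠ r₀ → c' r = a.c r := fun r hr => by rw [hc', Function.update_of_ne hr]
  have hcr₀ : c' r₀ = a.c r₀ + 1 := by rw [hc', Function.update_self]
  have hτM : ∀ r, Y.lv r ≤ M ↔ ¬ t₀ < Y.τ (Y.lv r) := fun r => by rw [Y.τ_iff, hM]; omega
  have hhs : ∀ r, Y.lv r ≤ M →
      hs Dg (Hc Y c') (Y.τ (Y.lv r)) = hs Dg (Hc Y a.c) (Y.τ (Y.lv r)) := by
    intro r hr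
    apply hs_congr
    intro i hi
    rw [hτM] at hr
    rw [hH, if_neg (by omega), Nat.add_zero]
  refine ⟨⟨κ₂, c', fun r => r = r₀ ∨ (a.on r ∧ Y.lv r ≤ M), Function.update a.Sf r₀ S₀,
    ?_, ?_, ?_, ?_, ?_⟩, ?_⟩
  · -- certificates
    rintro r ho
    by_cases hr : r = r₀
    · subst hr
      rw [Function.update_self]
      exact ⟨hS₀c, fun τ hτ => hS₀ τ ((hAg.mono Finset.subset_union_left).trans hτ)⟩
    · rw [Function.update_of_ne hr]
      obtain ⟨h5, h6⟩ := ho.resolve_left hr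
      have h7 := a.cert r h5
      exact ⟨h7.1, fun τ hτ => h7.2 τ ((hAg.mono ((hS₁ r h6 h5).trans
        Finset.subset_union_right)).trans hτ)⟩
  · -- the number of the actions
    intro r
    rw [hSc]
    obtain ⟨h1, h2⟩ := a.low r
    by_cases hr : r = r₀
    · subst hr
      have h3 := h2 he
      rw [hcr₀]
      exact ⟨by omega, fun h => absurd (Or.inl rfl) h⟩
    · rw [hcr r hr]
      by_cases hl : Y.lv r ≤ M
      · refine ⟨by omega, fun h => ?_⟩
        have h3 : ¬ a.on r := fun h' => h (Or.inr ⟨h', hl⟩)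
        have h4 := h2 h3
        omega
      · have h5 : t₀ < Y.τ (Y.lv r) := by
          by_contra h
          exact hl ((hτM r).2 h)
        rw [if_pos h5]
        exact ⟨by omega, fun _ => by omega⟩
  · -- the blocks of the counters
    intro t u hu
    rw [hG, hH, hz₂, hz₁]
    have h1 : ¬ Y.cdH t u = Y.cdV r₀ (hs Dg (Hc Y a.c) (Y.τ (Y.lv r₀))) := Y.cd_ne _ _ _ _
    have h2 := a.markH t u hu
    by_cases ht : t = t₀
    · subst ht
      rw [if_pos rfl]
      constructor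
      · rintro (h | h | h)
        · rw [(Y.cdH_inj _ _ _ _ h).2]
          omega
        · exact absurd h h1
        · have := h2.1 h
          omega
      · intro h
        rcases Nat.lt_or_ge (Hc Y a.c t) (nn (Dg t) u) with h3 | h3
        · left
          rw [nn_inj hu hu₀ (by omega)]
        · exact Or.inr (Or.inr (h2.2 h3))
    · rw [if_neg ht, Nat.add_zero]
      constructor
      · rintro (h | h | h)
        · exact absurd (Y.cdH_inj _ _ _ _ h).1 ht
        · exact absurd h h1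
        · exact h2.1 h
      · intro h
        exact Or.inr (Or.inr (h2.2 h))
  · -- the blocks of the states
    intro r
    rw [hG]
    have hne : ¬ Y.cdV r (hs Dg (Hc Y c') (Y.τ (Y.lv r))) = z₂ := fun h =>
      Y.cd_ne _ _ _ _ (hz₂.symm.trans h.symm)
    by_cases hr : r = r₀
    · subst hr
      exact ⟨fun _ => Or.inl rfl, fun _ => Or.inr (Or.inl (by rw [hz₁, hhs r hmM]))⟩
    · have hne1 : ¬ Y.cdV r (hs Dg (Hc Y c') (Y.τ (Y.lv r))) = z₁ := fun h =>
        hr (Y.cdV_inj _ _ _ _ (h.trans hz₁)).1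
      by_cases hl : Y.lv r ≤ M
      · rw [hhs r hl] at hne hne1 ⊢
        rw [a.markV]
        constructor
        · rintro (h | h | h)
          · exact absurd h hne
          · exact absurd h hne1
          · exact Or.inr ⟨h, hl⟩
        · rintro (h | h)
          · exact absurd h hr
          · exact Or.inr (Or.inr h.1)
      · have h5 : t₀ < Y.τ (Y.lv r) := by
          by_contra h
          exact hl ((hτM r).2 h)
        constructor
        · rintro (h | h | h)
          · exact absurd h hne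
          · exact absurd h hne1
          · exfalso
            obtain ⟨k, hk, hk'⟩ := a.old _ _ h
            have h6 := hs_inj (D := Dg) (h := Hc Y c') (h' := k) (n := Y.τ (Y.lv r)) ?_ ?_ hk t₀ h5
            · have h7 := hk' t₀
              rw [hH, if_pos rfl] at h6
              omega
            · intro i _
              have h7 := a.Hc_lt i
              rw [hH]
              split_ifs <;> omega
            · intro i _
              have h7 := a.Hc_lt i
              have h8 := hk' i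
              omega
        · rintro (h | h)
          · exact absurd h hr
          · exact absurd h.2 hl
  · -- the marked states are old
    intro r v h
    rw [hG] at h
    rcases h with h | h | h
    · exact absurd (hz₂.symm.trans h.symm) (Y.cd_ne _ _ _ _)
    · obtain ⟨h1, h2⟩ := Y.cdV_inj _ _ _ _ (h.trans hz₁)
      subst h1
      exact ⟨Hc Y a.c, h2, fun t => by rw [hH]; omega⟩
    · obtain ⟨k, hk, hk'⟩ := a.old r v h
      exact ⟨k, hk, fun t => by rw [hH]; have := hk' t; omega⟩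
  · -- the step
    refine ⟨?_, ?_, ?_, ?_⟩
    · change Hc Y a.c t₀ < Hc Y c' t₀
      rw [hH, if_pos rfl]
      omega
    · intro r
      change a.c r ≤ c' r
      by_cases hr : r = r₀
      · subst hr
        omega
      · rw [hcr r hr]
    · intro r hr
      have hne : r ≠ r₀ := by
        rintro rfl
        omega
      have hl : Y.lv r ≤ M := by
        rw [hM]
        exact (Y.le_pc _).trans (Y.pc_mono _ _ hr.le)
      refine ⟨hcr r hne, ?_, fun ho => ⟨Function.update_of_ne hne _ _,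
        hAg.mono ((hS₁ r hl ho).trans Finset.subset_union_right)⟩⟩
      exact ⟨fun h => (h.resolve_left hne).1, fun h => Or.inr ⟨h, hl⟩⟩
    · intro x hx
      have h1 := Y.le_pc' t₀
      exact (f3 x (by omega)).trans (e3 x (by omega))

/-- the initial configuration -/
def LC.init (Y : Sys p) : LC Y where
  κ := Conf.init Y.cl
  c := fun _ => 0
  on := fun _ => False
  Sf := fun _ => ∅
  cert := fun _ h => h.elim
  low := fun r => ⟨Nat.zero_le _, fun _ => Nat.zero_le _⟩
  markH := fun t u _ => by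
    have h1 : Hc Y (fun _ => 0) t = 0 := by simp [Hc]
    have h2 := nn_pos (Dg t) u
    rw [h1]
    constructor
    · intro h
      exact absurd h (Set.notMem_empty _)
    · intro h
      omega
  markV := fun r => ⟨fun h => absurd h (Set.notMem_empty _), fun h => h.elim⟩
  old := fun r v h => absurd h (Set.notMem_empty _)

end Pool.Agent.PFQ
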